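import Pool.Agent.Helper94.SH.Tensor

/-!
Sharpness of the theorem on Hodge structures with a prime extreme Hodge number (MP_b8862a_ag), common part:
the Mumford-Tate group is not the full group if a rational linear map of small rank commutes with the Hodge cocharacter.
-/

open Matrix Module MH

namespace SH94

variable {n : Type*} [Fintype n] [DecidableEq n]

section exp

variable {Q h N c₀ : Matrix n n ℂ}

/-- the exponential of a nilpotent skew matrix is an isometry of determinant one -/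
theorem exp_spec (hN : N * N * N = 0) (hs : Nᵀ * Q + Q * N = 0) (hQ : Q.det ≠ 0) {ε : ℂ} (hd : h * N - N * h = ε • N) :
    ∃ g : GL n ℂ, (g : Matrix n n ℂ)ᵀ * Q * (g : Matrix n n ℂ) = Q ∧ (g : Matrix n n ℂ).det = 1 ∧
      (g : Matrix n n ℂ) * h * ((g⁻¹ : GL n ℂ) : Matrix n n ℂ) = h - ε • N := by
  have hN4 : N * (N * N) = 0 := by rw [← mul_assoc, hN]
  have hNt : Nᵀ * Q = -(Q * N) := eq_neg_of_add_eq_zero_left hs
  -- the one parameter group
  let G : ℂ → Matrix n n ℂ := fun t => 1 + t • N + (t ^ 2 / 2) • (N * N)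
  have hG : ∀ a b : ℂ, G a * G b = G (a + b) := by
    intro a b
    show (1 + a • N + (a ^ 2 / 2) • (N * N)) * (1 + b • N + (b ^ 2 / 2) • (N * N)) =
      1 + (a + b) • N + ((a + b) ^ 2 / 2) • (N * N)
    have e4 : N * N * (N * N) = 0 := by rw [← mul_assoc, hN, zero_mul]
    simp only [add_mul, mul_add, one_mul, mul_one, Matrix.smul_mul, Matrix.mul_smul, smul_smul, hN, hN4, e4, smul_zero,
      add_zero]
    have : (a + b) ^ 2 / 2 = a ^ 2 / 2 + a * b + b ^ 2 / 2 := by ring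
    rw [this, add_smul, add_smul, add_smul, mul_comm b a]
    abel
  have hG0 : G 0 = 1 := by
    show 1 + (0 : ℂ) • N + ((0 : ℂ) ^ 2 / 2) • (N * N) = 1
    rw [zero_smul, add_zero, show (0 : ℂ) ^ 2 / 2 = 0 by norm_num, zero_smul, add_zero]
  have hGt : ∀ t : ℂ, (G t)ᵀ * Q = Q * G (-t) := by
    intro t
    show (1 + t • N + (t ^ 2 / 2) • (N * N))ᵀ * Q = Q * (1 + (-t) • N + ((-t) ^ 2 / 2) • (N * N))
    have e2 : Nᵀ * (Nᵀ * Q) = Q * (N * N) := by
      rw [hNt, mul_neg, ← mul_assoc, hNt, neg_mul, neg_neg, mul_assoc]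
    rw [Matrix.transpose_add, Matrix.transpose_add, Matrix.transpose_one, Matrix.transpose_smul, Matrix.transpose_smul,
      Matrix.transpose_mul, add_mul, add_mul, one_mul, Matrix.smul_mul, Matrix.smul_mul, mul_assoc, e2, hNt, mul_add,
      mul_add, mul_one, Matrix.mul_smul, Matrix.mul_smul, neg_smul, smul_neg, neg_sq]
  have hiso : ∀ t : ℂ, (G t)ᵀ * Q * G t = Q := by
    intro t
    rw [hGt, mul_assoc, hG, neg_add_cancel, hG0, mul_one]
  have hdet : (G 1).det = 1 := by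
    have h1 : G 1 = G (1 / 2) * G (1 / 2) := by rw [hG]; norm_num
    have h2 := congrArg Matrix.det (hiso (1 / 2))
    rw [Matrix.det_mul, Matrix.det_mul, Matrix.det_transpose] at h2
    have h3 : (G (1 / 2)).det * (G (1 / 2)).det = 1 := by
      apply mul_right_cancel₀ hQ
      rw [one_mul]
      calc (G (1 / 2)).det * (G (1 / 2)).det * Q.det = (G (1 / 2)).det * Q.det * (G (1 / 2)).det := by ring
        _ = Q.det := h2
    rw [h1, Matrix.det_mul, h3]
  have hg1 : G 1 * G (-1) = 1 := by rw [hG, add_neg_cancel, hG0]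
  have hg2 : G (-1) * G 1 = 1 := by rw [hG, neg_add_cancel, hG0]
  refine ⟨⟨G 1, G (-1), hg1, hg2⟩, hiso 1, hdet, ?_⟩
  show G 1 * h * G (-1) = h - ε • N
  have hNh : N * h = h * N - ε • N := by rw [← hd]; abel
  have hNNh : N * N * h = h * (N * N) - (2 * ε) • (N * N) := by
    rw [mul_assoc, hNh, mul_sub, ← mul_assoc, hNh, sub_mul, Matrix.smul_mul, Matrix.mul_smul, mul_assoc, two_mul,
      add_smul]
    abel
  have e1 : G 1 * h = (h - ε • N) * G 1 := by
    show (1 + (1 : ℂ) • N + ((1 : ℂ) ^ 2 / 2) • (N * N)) * h =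
      (h - ε • N) * (1 + (1 : ℂ) • N + ((1 : ℂ) ^ 2 / 2) • (N * N))
    rw [add_mul, add_mul, one_mul, Matrix.smul_mul, Matrix.smul_mul, hNh, hNNh, sub_mul, mul_add, mul_add, mul_one,
      mul_add, mul_add, mul_one, Matrix.mul_smul, Matrix.mul_smul, Matrix.smul_mul, Matrix.smul_mul, Matrix.mul_smul,
      Matrix.mul_smul, hN4, smul_zero, smul_zero, smul_sub]
    simp only [smul_sub, smul_smul, one_smul, one_mul, add_zero]
    have : (1 : ℂ) ^ 2 / 2 * (2 * ε) = ε := by ring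
    rw [this]
    abel
  rw [e1, mul_assoc, hg1, mul_one]

end exp

theorem Q_det {Q : Matrix n n ℚ} {S : Finset ℤ} {P : ℤ → Matrix n n ℂ} {w : ℤ} (H : IsHW w Q S P) :
    (toC Q).det ≠ 0 := by
  obtain ⟨B, Bi, Qi, _, _, h3, _, _⟩ := H.exists_basis
  intro h0
  have := congrArg Matrix.det h3
  rw [Matrix.det_mul, h0, zero_mul, Matrix.det_one] at this
  exact zero_ne_one this

/-- `M ↦ (Z - Z ^ T) Q` for `Z = C₁ M C₂ ^ T` -/
def wd {a b : Type*} [Fintype a] [Fintype b] (C₁ : Matrix n a ℂ) (C₂ : Matrix n b ℂ) (Q : Matrix n n ℂ) :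
    Matrix a b ℂ →ₗ[ℂ] Matrix n n ℂ where
  toFun M := (C₁ * M * C₂ᵀ - (C₁ * M * C₂ᵀ)ᵀ) * Q
  map_add' M M' := by
    rw [Matrix.mul_add, Matrix.add_mul, Matrix.transpose_add, add_sub_add_comm, Matrix.add_mul]
  map_smul' c M := by
    rw [Matrix.mul_smul, Matrix.smul_mul, Matrix.transpose_smul, ← smul_sub, Matrix.smul_mul, RingHom.id_apply]

/-- The Mumford-Tate group is not the full group if a linear map of matrices, defined over the rational numbers, of small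
rank, commutes with the Hodge cocharacter and has the Hodge cocharacter as an eigenvector. -/
theorem exists_not_mem {Q : Matrix n n ℚ} {P : ℤ → Matrix n n ℂ} (H : IsHW 2 Q {0, 1, 2} P)
    (F : Matrix n n ℂ →ₗ[ℂ] Matrix n n ℂ)
    (hrat : ∀ A : Matrix n n ℚ, ∃ B : Matrix n n ℚ, F (toC A) = toC B)
    (hF : ∀ X, F ((P 2 - P 0) * X - X * (P 2 - P 0)) = (P 2 - P 0) * F X - F X * (P 2 - P 0)) {c : ℂ} (hc : c ≠ 0)
    (hFh : F (P 2 - P 0) = c • (P 2 - P 0))
    (hrk : finrank ℂ (LinearMap.range F) < 2 * (P 2).rank * (P 1).rank) :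
    ∃ g : GL n ℂ, (g : Matrix n n ℂ)ᵀ * toC Q * (g : Matrix n n ℂ) = toC Q ∧ (g : Matrix n n ℂ).det = 1 ∧
      g ∉ MT {0, 1, 2} P := by
  by_contra hcon
  push Not at hcon
  have hall : ∀ g : GL n ℂ, (g : Matrix n n ℂ)ᵀ * toC Q * (g : Matrix n n ℂ) = toC Q →
      (g : Matrix n n ℂ).det = 1 → g ∈ MT {0, 1, 2} P := hcon
  have mul := H.mul
  have sum : P 0 + P 1 + P 2 = 1 := by
    rw [← H.sum, Finset.sum_insert (by decide), Finset.sum_insert (by decide), Finset.sum_singleton, ← add_assoc]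
  have h01 : P 0 * P 1 = 0 := by rw [mul, if_neg (by decide)]
  have h02 : P 0 * P 2 = 0 := by rw [mul, if_neg (by decide)]
  have h10 : P 1 * P 0 = 0 := by rw [mul, if_neg (by decide)]
  have h12 : P 1 * P 2 = 0 := by rw [mul, if_neg (by decide)]
  have h20 : P 2 * P 0 = 0 := by rw [mul, if_neg (by decide)]
  have h21 : P 2 * P 1 = 0 := by rw [mul, if_neg (by decide)]
  have h00 : P 0 * P 0 = P 0 := by rw [mul, if_pos rfl]
  have h11 : P 1 * P 1 = P 1 := by rw [mul, if_pos rfl]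
  have h22 : P 2 * P 2 = P 2 := by rw [mul, if_pos rfl]
  have t0 : (P 0)ᵀ * toC Q = toC Q * P 2 := by rw [H.transpose_mul_Q 0]; rfl
  have t1 : (P 1)ᵀ * toC Q = toC Q * P 1 := by rw [H.transpose_mul_Q 1]; rfl
  have t2 : (P 2)ᵀ * toC Q = toC Q * P 0 := by rw [H.transpose_mul_Q 2]; rfl
  have hQs : (toC Q)ᵀ = toC Q := by
    have := H.Q_symm
    rw [this]
    norm_num
  have hQd := Q_det H
  -- elements of degree one
  have key : ∀ (i : ℤ) (ε : ℂ) (Z : Matrix n n ℂ), (i = 2 ∧ ε = 1 ∨ i = 0 ∧ ε = -1) → P i * Z = Z → Z * (P 1)ᵀ = Z →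
      F ((Z - Zᵀ) * toC Q) = c • ((Z - Zᵀ) * toC Q) := by
    intro i ε Z hi h1 h2
    have h3 : P 1 * Zᵀ = Zᵀ := by
      rw [← Matrix.transpose_transpose (P 1), ← Matrix.transpose_mul, h2]
    have h4 : Zᵀ * (P i)ᵀ = Zᵀ := by rw [← Matrix.transpose_mul, h1]
    have hh : (P 2 - P 0) * Z = ε • Z := by
      rw [← h1]
      rcases hi with ⟨rfl, rfl⟩ | ⟨rfl, rfl⟩
      · rw [← mul_assoc, sub_mul, h22, h02, sub_zero, one_smul]
      · rw [← mul_assoc, sub_mul, h20, h00, zero_sub, neg_mul, neg_one_smul]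
    have hh' : (P 2 - P 0) * Zᵀ = 0 := by
      rw [← h3, ← mul_assoc, sub_mul, h21, h01, sub_zero, zero_mul]
    have hQh : toC Q * (P 2 - P 0) = -((P 2 - P 0)ᵀ * toC Q) := by
      rw [Matrix.transpose_sub, sub_mul, t2, t0, mul_sub]
      abel
    have a1 : Z * toC Q * (P 2 - P 0) = 0 := by
      rw [mul_assoc, hQh, mul_neg, ← mul_assoc]
      have : Z * (P 2 - P 0)ᵀ = 0 := by
        rw [← Matrix.transpose_transpose Z, ← Matrix.transpose_mul, hh', Matrix.transpose_zero]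
      rw [this, zero_mul, neg_zero]
    have a2 : Zᵀ * toC Q * (P 2 - P 0) = -(ε • (Zᵀ * toC Q)) := by
      rw [mul_assoc, hQh, mul_neg, ← mul_assoc, ← Matrix.transpose_mul, hh, Matrix.transpose_smul, Matrix.smul_mul]
    have hPi : (P i)ᵀ * toC Q * P i = 0 ∧ P 1 * P i = 0 := by
      rcases hi with ⟨rfl, -⟩ | ⟨rfl, -⟩
      · exact ⟨by rw [t2, mul_assoc, h02, mul_zero], h12⟩
      · exact ⟨by rw [t0, mul_assoc, h20, mul_zero], h10⟩
    have hPi1 : (P i)ᵀ * toC Q * P 1 = 0 := by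
      rcases hi with ⟨rfl, -⟩ | ⟨rfl, -⟩
      · rw [t2, mul_assoc, h01, mul_zero]
      · rw [t0, mul_assoc, h21, mul_zero]
    -- products
    have b1 : Z * toC Q * Z = 0 := by
      have : Z * toC Q * Z = Z * ((P 1)ᵀ * toC Q) * (P i * Z) := by
        rw [← mul_assoc, ← mul_assoc, h2, mul_assoc _ (P i), h1]
      rw [this, t1, ← mul_assoc, ← mul_assoc, mul_assoc (Z * toC Q), hPi.2, mul_zero, zero_mul]
    have b2 : Zᵀ * toC Q * Zᵀ = 0 := by
      calc Zᵀ * toC Q * Zᵀ = (Zᵀ * (P i)ᵀ) * toC Q * (P 1 * Zᵀ) := by rw [h3, h4]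
        _ = Zᵀ * ((P i)ᵀ * toC Q * P 1) * Zᵀ := by simp only [mul_assoc]
        _ = 0 := by rw [hPi1, mul_zero, zero_mul]
    have b3 : Zᵀ * toC Q * Z = 0 := by
      calc Zᵀ * toC Q * Z = (Zᵀ * (P i)ᵀ) * toC Q * (P i * Z) := by rw [h1, h4]
        _ = Zᵀ * ((P i)ᵀ * toC Q * P i) * Z := by simp only [mul_assoc]
        _ = 0 := by rw [hPi.1, mul_zero, zero_mul]
    set N := (Z - Zᵀ) * toC Q with hNdef
    have hN2 : N * N = -(Z * toC Q * Zᵀ * toC Q) := by
      rw [hNdef, sub_mul, sub_mul, mul_sub, mul_sub, ← mul_assoc (Z * toC Q), b1, ← mul_assoc (Zᵀ * toC Q), b3,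
        ← mul_assoc (Zᵀ * toC Q), b2, ← mul_assoc (Z * toC Q)]
      simp
    have hN3 : N * N * N = 0 := by
      rw [hN2, hNdef, neg_mul, sub_mul, mul_sub]
      have e1 : Z * toC Q * Zᵀ * toC Q * (Z * toC Q) = Z * toC Q * (Zᵀ * toC Q * Z) * toC Q := by
        simp only [mul_assoc]
      have e2 : Z * toC Q * Zᵀ * toC Q * (Zᵀ * toC Q) = Z * toC Q * (Zᵀ * toC Q * Zᵀ) * toC Q := by
        simp only [mul_assoc]
      rw [e1, e2, b3, b2]
      simp
    have hNs : Nᵀ * toC Q + toC Q * N = 0 := by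
      rw [hNdef, Matrix.transpose_mul, hQs, Matrix.transpose_sub, Matrix.transpose_transpose]
      rw [← mul_assoc, ← add_mul, ← mul_add]
      simp
    have hNd : (P 2 - P 0) * N - N * (P 2 - P 0) = ε • N := by
      rw [hNdef, ← mul_assoc, mul_sub, hh, hh', sub_zero, sub_mul, sub_mul, a1, a2, smul_sub, Matrix.smul_mul]
      abel
    obtain ⟨g, g1, g2, g3⟩ := exp_spec hN3 hNs hQd hNd
    have h5 := MT_comm mul sum F hrat hF (hall g g1 g2) (P 2 - P 0)
    have h6 : ε • F N = ε • (c • N) := by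
      rw [hFh, Matrix.mul_smul, Matrix.smul_mul, g3, LinearMap.map_sub F (P 2 - P 0) (ε • N), hFh, map_smul,
        smul_sub c (P 2 - P 0) (ε • N)] at h5
      rw [smul_comm ε c]
      exact sub_right_injective h5
    have hε : ε ≠ 0 := by
      rcases hi with ⟨-, rfl⟩ | ⟨-, rfl⟩ <;> norm_num
    exact smul_right_injective _ hε h6
  -- the ranks
  have hE : (P 2 + P 0) * (P 2 + P 0) = P 2 + P 0 := by
    rw [add_mul, mul_add, mul_add, h22, h20, h02, h00]
    abel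
  have rE : (P 2 + P 0).rank = 2 * (P 2).rank := by
    have e1 := trace_eq_rank hE
    rw [Matrix.trace_add, trace_eq_rank h22] at e1
    have e2 : (P 0).trace = ((P 2).rank : ℂ) := by
      have e3 : (P 0) = (P 2).map (starRingEnd ℂ) := (H.conj 2).symm
      have e4 : ((P 2).map (starRingEnd ℂ)).trace = starRingEnd ℂ ((P 2).trace) := by
        simp [Matrix.trace, map_sum]
      rw [e3, e4, trace_eq_rank h22, map_natCast]
    rw [e2] at e1
    have e5 : ((P 2 + P 0).rank : ℂ) = ((2 * (P 2).rank : ℕ) : ℂ) := by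
      rw [← e1]
      push_cast
      ring
    exact_mod_cast e5
  obtain ⟨B₁, C₁, f1, f2⟩ := exists_fact hE
  obtain ⟨B₂, C₂, f3, f4⟩ := exists_fact h11
  obtain ⟨Φ, hΦ⟩ : ∃ Φ : Matrix (Fin (P 2 + P 0).rank) (Fin (P 1).rank) ℂ →ₗ[ℂ] Matrix n n ℂ,
      ∀ M, Φ M = (C₁ * M * C₂ᵀ - (C₁ * M * C₂ᵀ)ᵀ) * toC Q := ⟨wd C₁ C₂ (toC Q), fun M => rfl⟩
  have hEC : (P 2 + P 0) * C₁ = C₁ := by
    calc (P 2 + P 0) * C₁ = (C₁ * B₁) * C₁ := by rw [f2]
      _ = C₁ := by rw [Matrix.mul_assoc, f1, Matrix.mul_one]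
  have hPC : C₂ᵀ * (P 1)ᵀ = C₂ᵀ := by
    rw [← Matrix.transpose_mul]
    congr 1
    calc P 1 * C₂ = (C₂ * B₂) * C₂ := by rw [f4]
      _ = C₂ := by rw [Matrix.mul_assoc, f3, Matrix.mul_one]
  have hmem : ∀ M, Φ M ∈ LinearMap.range F := by
    intro M
    have z1 : (P 2 + P 0) * (C₁ * M * C₂ᵀ) = C₁ * M * C₂ᵀ := by
      rw [← Matrix.mul_assoc, ← Matrix.mul_assoc, hEC]
    have z2 : C₁ * M * C₂ᵀ * (P 1)ᵀ = C₁ * M * C₂ᵀ := by rw [Matrix.mul_assoc, hPC]
    generalize hZ : C₁ * M * C₂ᵀ = Z at z1 z2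
    have k2 := key 2 1 (P 2 * Z) (Or.inl ⟨rfl, rfl⟩) (by rw [← mul_assoc, h22]) (by rw [mul_assoc, z2])
    have k0 := key 0 (-1) (P 0 * Z) (Or.inr ⟨rfl, rfl⟩) (by rw [← mul_assoc, h00]) (by rw [mul_assoc, z2])
    refine ⟨c⁻¹ • (((P 2 * Z) - (P 2 * Z)ᵀ) * toC Q + ((P 0 * Z) - (P 0 * Z)ᵀ) * toC Q), ?_⟩
    rw [map_smul, map_add, k2, k0, ← smul_add, smul_smul, inv_mul_cancel₀ hc, one_smul]
    rw [hΦ, hZ, ← add_mul]
    congr 1
    conv_rhs => rw [← z1]
    rw [add_mul, Matrix.transpose_add]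
    abel
  have hinj : Function.Injective (Φ.codRestrict (LinearMap.range F) hmem) := by
    rw [← LinearMap.ker_eq_bot, LinearMap.ker_codRestrict, LinearMap.ker_eq_bot']
    intro M hM
    have hM' : (C₁ * M * C₂ᵀ - (C₁ * M * C₂ᵀ)ᵀ) * toC Q = 0 := by rw [← hΦ]; exact hM
    have z1 : (P 2 + P 0) * (C₁ * M * C₂ᵀ) = C₁ * M * C₂ᵀ := by
      rw [← Matrix.mul_assoc, ← Matrix.mul_assoc, hEC]
    have z2 : C₁ * M * C₂ᵀ * (P 1)ᵀ = C₁ * M * C₂ᵀ := by rw [Matrix.mul_assoc, hPC]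
    have hZ0 : C₁ * M * C₂ᵀ = 0 := by
      generalize C₁ * M * C₂ᵀ = Z at z1 z2 hM'
      have hu : IsUnit (toC Q) := (Matrix.isUnit_iff_isUnit_det _).2 (isUnit_iff_ne_zero.2 hQd)
      have h7 : Z - Zᵀ = 0 := by
        obtain ⟨u, hu⟩ := hu
        rw [← hu] at hM'
        calc Z - Zᵀ = (Z - Zᵀ) * (u : Matrix n n ℂ) * ((u⁻¹ : (Matrix n n ℂ)ˣ) : Matrix n n ℂ) := by
              rw [mul_assoc, Units.mul_inv, mul_one]
          _ = 0 := by rw [hM', zero_mul]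
      rw [sub_eq_zero] at h7
      have h8 : Zᵀ = P 1 * Zᵀ := by
        conv_lhs => rw [← z2, Matrix.transpose_mul, Matrix.transpose_transpose]
      rw [← z1]
      conv_lhs => rw [h7, h8, ← mul_assoc, add_mul, h21, h01, add_zero, zero_mul]
    calc M = (B₁ * C₁) * M * (B₂ * C₂)ᵀ := by rw [f1, f3, Matrix.one_mul, Matrix.transpose_one, Matrix.mul_one]
      _ = B₁ * (C₁ * M * C₂ᵀ) * B₂ᵀ := by
          rw [Matrix.transpose_mul]
          simp only [Matrix.mul_assoc]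
      _ = 0 := by rw [hZ0, Matrix.mul_zero, Matrix.zero_mul]
  have hfin := LinearMap.finrank_le_finrank_of_injective hinj
  rw [Module.finrank_matrix, Fintype.card_fin, Fintype.card_fin, finrank_self, mul_one, rE] at hfin
  omega

end SH94
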