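import Pool.Agent.Helper94.SH.NotFull
import Pool.Agent.Helper27.PGN.Gen

/-!
Sharpness of the theorem on Hodge structures with a prime extreme Hodge number (MP_b8862a_ag), common part:
direct summands of polarised Hodge structures.
-/

open Matrix Module MH

set_option linter.unusedSectionVars false

namespace SH94

variable {N m : Type*} [Fintype N] [DecidableEq N] [Fintype m] [DecidableEq m]

/-- the complex matrix of a rational matrix -/
noncomputable abbrev cC {a b : Type*} (A : Matrix a b ℚ) : Matrix a b ℂ := A.map (algebraMap ℚ ℂ)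

theorem cC_mul {a b c : Type*} [Fintype b] (A : Matrix a b ℚ) (B : Matrix b c ℚ) : cC (A * B) = cC A * cC B :=
  Matrix.map_mul

theorem cC_one : cC (1 : Matrix m m ℚ) = 1 := Matrix.map_one _ (map_zero _) (map_one _)

theorem cC_conj {a b : Type*} (A : Matrix a b ℚ) : (cC A).map (starRingEnd ℂ) = cC A := by
  ext i j
  simp [cC]

theorem cC_inj {a b : Type*} {A B : Matrix a b ℚ} (h : cC A = cC B) : A = B := by
  ext i j
  have := congrFun (congrFun h i) j
  simpa [cC] using this

section

variable {w : ℤ} {Q : Matrix N N ℚ} {S : Finset ℤ} {ι : Type*} {P : ι → Matrix N N ℂ} {B : Matrix m N ℚ}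
  {C : Matrix N m ℚ}

theorem bc_one (h1 : B * C = 1) : cC B * cC C = 1 := by rw [← cC_mul, h1, cC_one]

theorem comm_cb (hc : ∀ p, toC (C * B) * P p = P p * toC (C * B)) (p : ι) :
    cC C * cC B * P p = P p * (cC C * cC B) := by
  have := hc p
  rwa [show toC (C * B) = cC C * cC B from cC_mul C B] at this

/-- `B P` on a summand -/
theorem b_P (h1 : B * C = 1) (hc : ∀ p, toC (C * B) * P p = P p * toC (C * B)) (p : ι) :
    cC B * P p = cC B * P p * cC C * cC B := by
  calc cC B * P p = (cC B * cC C) * cC B * P p := by rw [bc_one h1, Matrix.one_mul]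
    _ = cC B * (cC C * cC B * P p) := by simp only [Matrix.mul_assoc]
    _ = cC B * P p * cC C * cC B := by rw [comm_cb hc]; simp only [Matrix.mul_assoc]

/-- `P C` on a summand -/
theorem P_c (h1 : B * C = 1) (hc : ∀ p, toC (C * B) * P p = P p * toC (C * B)) (p : ι) :
    P p * cC C = cC C * (cC B * P p * cC C) := by
  calc P p * cC C = P p * (cC C * (cC B * cC C)) := by rw [bc_one h1, Matrix.mul_one]
    _ = P p * (cC C * cC B) * cC C := by simp only [Matrix.mul_assoc]
    _ = cC C * (cC B * P p * cC C) := by rw [← comm_cb hc]; simp only [Matrix.mul_assoc]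

/-- a direct summand of a polarised Hodge structure -/
theorem restrict {P : ℤ → Matrix N N ℂ} (H : IsHW w Q S P) (h1 : B * C = 1) (hc : ∀ p, toC (C * B) * P p = P p * toC (C * B)) :
    IsHW w (Cᵀ * Q * C) S (fun p => cC B * P p * cC C) := by
  have hmul : ∀ p q, cC B * P p * cC C * (cC B * P q * cC C) = cC B * (P p * P q) * cC C := by
    intro p q
    calc cC B * P p * cC C * (cC B * P q * cC C) = (cC B * P p * cC C * cC B) * P q * cC C := by
          simp only [Matrix.mul_assoc]
      _ = cC B * (P p * P q) * cC C := by rw [← b_P h1 hc p]; simp only [Matrix.mul_assoc]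
  have hQ : toC (Cᵀ * Q * C) = (cC C)ᵀ * toC Q * cC C := by
    show cC (Cᵀ * Q * C) = _
    rw [cC_mul, cC_mul]
    rfl
  refine ⟨fun p q => ?_, fun p hp => ?_, ?_, fun p => ?_, ?_, fun p q hpq => ?_, fun p v hv hv0 => ?_⟩
  · rw [hmul, H.mul]
    split_ifs <;> simp
  · rw [H.supp p hp]
    simp
  · rw [← Matrix.sum_mul, ← Matrix.mul_sum, H.sum, Matrix.mul_one, bc_one h1]
  · rw [Matrix.map_mul, Matrix.map_mul, cC_conj, cC_conj, H.conj]
  · rw [Matrix.transpose_mul, Matrix.transpose_mul, Matrix.transpose_transpose, H.symm, Matrix.smul_mul,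
      Matrix.mul_smul, Matrix.mul_assoc]
  · rw [hQ]
    calc (cC B * P p * cC C)ᵀ * ((cC C)ᵀ * toC Q * cC C) * (cC B * P q * cC C)
        = (cC C * (cC B * P p * cC C))ᵀ * toC Q * (cC C * (cC B * P q * cC C)) := by
          simp only [Matrix.transpose_mul, Matrix.mul_assoc]
      _ = (cC C)ᵀ * ((P p)ᵀ * toC Q * P q) * cC C := by
          rw [← P_c h1 hc, ← P_c h1 hc, Matrix.transpose_mul]
          simp only [Matrix.mul_assoc]
      _ = 0 := by rw [H.orth p q hpq, Matrix.mul_zero, Matrix.zero_mul]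
  · have e0 : P p *ᵥ (cC C *ᵥ v) = cC C *ᵥ v := by
      conv_rhs => rw [← hv]
      rw [Matrix.mulVec_mulVec, Matrix.mulVec_mulVec, P_c h1 hc]
    have e1 : v = cC B *ᵥ (cC C *ᵥ v) := by rw [Matrix.mulVec_mulVec, bc_one h1, Matrix.one_mulVec]
    have e2 : cC C *ᵥ v ≠ 0 := by
      intro h
      rw [h, Matrix.mulVec_zero] at e1
      exact hv0 e1
    have e3 := H.pos p _ e0 e2
    have e5 : star (cC C *ᵥ v) = cC C *ᵥ star v := by
      funext i
      simp only [Pi.star_apply, Matrix.mulVec, dotProduct, star_sum, star_mul']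
      refine Finset.sum_congr rfl fun j _ => ?_
      congr 1
      have h1 := congrFun (congrFun (cC_conj C) i) j
      rwa [Matrix.map_apply, starRingEnd_apply] at h1
    have e4 : v ⬝ᵥ (toC (Cᵀ * Q * C) *ᵥ star v) = (cC C *ᵥ v) ⬝ᵥ (toC Q *ᵥ star (cC C *ᵥ v)) := by
      rw [hQ, e5, ← Matrix.vecMul_transpose (cC C) v, ← Matrix.dotProduct_mulVec, Matrix.mulVec_mulVec,
        Matrix.mulVec_mulVec]
    rw [e4]
    exact e3

/-- the ranks of a direct summand -/
theorem rank_restrict (h1 : B * C = 1) (hc : ∀ p, toC (C * B) * P p = P p * toC (C * B)) (p : ι) :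
    (cC B * P p * cC C).rank = (P p * toC (C * B)).rank := by
  have e1 : P p * toC (C * B) = cC C * (cC B * P p * cC C) * cC B := by
    rw [← P_c h1 hc, show toC (C * B) = cC C * cC B from cC_mul C B]
    simp only [Matrix.mul_assoc]
  have e2 : cC B * P p * cC C = cC B * (P p * toC (C * B)) * cC C := by
    rw [show toC (C * B) = cC C * cC B from cC_mul C B]
    calc cC B * P p * cC C = cC B * P p * cC C * (cC B * cC C) := by rw [bc_one h1, Matrix.mul_one]
      _ = _ := by simp only [Matrix.mul_assoc]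
  apply le_antisymm
  · rw [e2]
    exact (Matrix.rank_mul_le_left _ _).trans (Matrix.rank_mul_le_right _ _)
  · rw [e1]
    exact (Matrix.rank_mul_le_left _ _).trans (Matrix.rank_mul_le_right _ _)

/-- the endomorphisms of a direct summand -/
theorem end_restrict (h1 : B * C = 1) (hc : ∀ p, toC (C * B) * P p = P p * toC (C * B))
    (hend : ∀ A : Matrix N N ℚ, C * B * A * (C * B) = A → (∀ p, toC A * P p = P p * toC A) →
      ∃ c : ℚ, A = c • (C * B)) (A : Matrix m m ℚ)
    (hA : ∀ p, toC A * (cC B * P p * cC C) = cC B * P p * cC C * toC A) : ∃ c : ℚ, A = c • (1 : Matrix m m ℚ) := by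
  have e1 : C * B * (C * A * B) * (C * B) = C * A * B := by
    calc C * B * (C * A * B) * (C * B) = C * (B * C) * A * (B * C) * B := by simp only [Matrix.mul_assoc]
      _ = C * A * B := by rw [h1, Matrix.mul_one, Matrix.mul_one]
  have e2 : ∀ p, toC (C * A * B) * P p = P p * toC (C * A * B) := by
    intro p
    have e3 : toC (C * A * B) = cC C * toC A * cC B := by
      show cC (C * A * B) = _
      rw [cC_mul, cC_mul]
      rfl
    rw [e3]
    calc cC C * toC A * cC B * P p = cC C * (toC A * (cC B * P p * cC C)) * cC B := by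
          conv_lhs => rw [Matrix.mul_assoc (cC C * toC A), b_P h1 hc]
          simp only [Matrix.mul_assoc]
      _ = (cC C * (cC B * P p * cC C)) * toC A * cC B := by rw [hA p]; simp only [Matrix.mul_assoc]
      _ = P p * (cC C * toC A * cC B) := by rw [← P_c h1 hc]; simp only [Matrix.mul_assoc]
  obtain ⟨c, h⟩ := hend _ e1 e2
  refine ⟨c, ?_⟩
  calc A = (B * C) * A * (B * C) := by rw [h1, Matrix.one_mul, Matrix.mul_one]
    _ = B * (C * A * B) * C := by simp only [Matrix.mul_assoc]
    _ = c • ((B * C) * (B * C)) := by rw [h, Matrix.mul_smul, Matrix.smul_mul]; simp only [Matrix.mul_assoc]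
    _ = c • 1 := by rw [h1, Matrix.one_mul]

/-- `Y ↦ B F(C Y B) C` -/
noncomputable def resL (F : Matrix N N ℂ →ₗ[ℂ] Matrix N N ℂ) (b : Matrix m N ℂ) (c : Matrix N m ℂ) :
    Matrix m m ℂ →ₗ[ℂ] Matrix m m ℂ where
  toFun Y := b * F (c * Y * b) * c
  map_add' X Y := by
    rw [Matrix.mul_add, Matrix.add_mul, map_add, Matrix.mul_add, Matrix.add_mul]
  map_smul' a X := by
    rw [Matrix.mul_smul, Matrix.smul_mul, map_smul, Matrix.mul_smul, Matrix.smul_mul, RingHom.id_apply]

/-- `Z ↦ B Z C` -/
noncomputable def sandL (b : Matrix m N ℂ) (c : Matrix N m ℂ) : Matrix N N ℂ →ₗ[ℂ] Matrix m m ℂ where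
  toFun Z := b * Z * c
  map_add' X Y := by rw [Matrix.mul_add, Matrix.add_mul]
  map_smul' a X := by rw [Matrix.mul_smul, Matrix.smul_mul, RingHom.id_apply]

end

/-- The Mumford-Tate group of a direct summand is not the full group if a linear map of matrices, defined over the
rational numbers, of small rank, commutes with the Hodge cocharacter and has the Hodge cocharacter as an eigenvector. -/
theorem not_mem_restrict {Q : Matrix N N ℚ} {P : ℤ → Matrix N N ℂ} (H : IsHW 2 Q {0, 1, 2} P) {B : Matrix m N ℚ}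
    {C : Matrix N m ℚ} (h1 : B * C = 1) (hc : ∀ p, toC (C * B) * P p = P p * toC (C * B))
    (F : Matrix N N ℂ →ₗ[ℂ] Matrix N N ℂ)
    (hrat : ∀ A : Matrix N N ℚ, ∃ A' : Matrix N N ℚ, F (toC A) = toC A')
    (hF : ∀ X, toC (C * B) * X * toC (C * B) = X →
      F ((P 2 - P 0) * X - X * (P 2 - P 0)) = (P 2 - P 0) * F X - F X * (P 2 - P 0)) {c : ℂ} (hc0 : c ≠ 0)
    (hFh : F (toC (C * B) * (P 2 - P 0)) = c • (toC (C * B) * (P 2 - P 0)))
    (hrk : finrank ℂ (LinearMap.range F) < 2 * (P 2 * toC (C * B)).rank * (P 1 * toC (C * B)).rank) :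
    ∃ g : GL m ℂ, (g : Matrix m m ℂ)ᵀ * toC (Cᵀ * Q * C) * (g : Matrix m m ℂ) = toC (Cᵀ * Q * C) ∧
      (g : Matrix m m ℂ).det = 1 ∧ g ∉ MT {0, 1, 2} (fun p => cC B * P p * cC C) := by
  have hcb : toC (C * B) = cC C * cC B := cC_mul C B
  have hbc := bc_one h1
  set b := cC B with hb
  set c' := cC C with hc'
  have hh : ∀ h : Matrix N N ℂ, h = P 2 - P 0 → c' * b * h = h * (c' * b) := by
    rintro h rfl
    rw [Matrix.mul_sub, Matrix.sub_mul, comm_cb hc, comm_cb hc]
  obtain ⟨h, hhd⟩ : ∃ h, h = P 2 - P 0 := ⟨_, rfl⟩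
  have hcomm := hh h hhd
  have hr : b * P 2 * c' - b * P 0 * c' = b * h * c' := by rw [hhd, Matrix.mul_sub, Matrix.sub_mul]
  have k1 : ∀ Z : Matrix N N ℂ, b * (c' * b) * Z = b * Z := by
    intro Z
    rw [← Matrix.mul_assoc b c' b, hbc, Matrix.one_mul]
  have k2 : ∀ Z : Matrix m N ℂ, Z * (c' * b) * c' = Z * c' := by
    intro Z
    rw [Matrix.mul_assoc, Matrix.mul_assoc c' b c', hbc, Matrix.mul_one]
  refine exists_not_mem (restrict H h1 hc) (resL F b c') ?_ ?_ hc0 ?_ ?_
  · intro A
    obtain ⟨A', hA'⟩ := hrat (C * A * B)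
    refine ⟨B * A' * C, ?_⟩
    have e1 : toC (C * A * B) = c' * toC A * b := by
      show cC (C * A * B) = _
      rw [cC_mul, cC_mul]
      rfl
    have e2 : toC (B * A' * C) = b * toC A' * c' := by
      show cC (B * A' * C) = _
      rw [cC_mul, cC_mul]
      rfl
    show b * F (c' * toC A * b) * c' = _
    rw [← e1, hA', e2]
  · intro Y
    show b * F (c' * ((b * P 2 * c' - b * P 0 * c') * Y - Y * (b * P 2 * c' - b * P 0 * c')) * b) * c' =
      (b * P 2 * c' - b * P 0 * c') * (b * F (c' * Y * b) * c') -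
        b * F (c' * Y * b) * c' * (b * P 2 * c' - b * P 0 * c')
    rw [hr]
    have hX : toC (C * B) * (c' * Y * b) * toC (C * B) = c' * Y * b := by
      rw [hcb]
      calc c' * b * (c' * Y * b) * (c' * b) = c' * (b * c') * Y * (b * c') * b := by simp only [Matrix.mul_assoc]
        _ = c' * Y * b := by rw [hbc, Matrix.mul_one, Matrix.mul_one]
    have hFX := hF _ hX
    rw [← hhd] at hFX
    obtain ⟨X, hXd⟩ : ∃ X, X = c' * Y * b := ⟨_, rfl⟩
    rw [hcb, ← hXd] at hX
    rw [← hXd] at hFX
    have hX1 : c' * b * X = X := by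
      rw [hXd]
      calc c' * b * (c' * Y * b) = c' * (b * c') * Y * b := by simp only [Matrix.mul_assoc]
        _ = c' * Y * b := by rw [hbc, Matrix.mul_one]
    have hX2 : X * (c' * b) = X := by
      rw [hXd]
      calc c' * Y * b * (c' * b) = c' * Y * (b * c') * b := by simp only [Matrix.mul_assoc]
        _ = c' * Y * b := by rw [hbc, Matrix.mul_one]
    have e1 : c' * (b * h * c' * Y - Y * (b * h * c')) * b = h * X - X * h := by
      rw [Matrix.mul_sub, Matrix.sub_mul]
      have a1 : c' * (b * h * c' * Y) * b = h * X := by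
        calc c' * (b * h * c' * Y) * b = (c' * b * h) * (c' * Y * b) := by simp only [Matrix.mul_assoc]
          _ = h * X := by rw [← hXd, hcomm, Matrix.mul_assoc, hX1]
      have a2 : c' * (Y * (b * h * c')) * b = X * h := by
        calc c' * (Y * (b * h * c')) * b = (c' * Y * b) * (h * (c' * b)) := by simp only [Matrix.mul_assoc]
          _ = X * h := by rw [← hXd, ← hcomm, ← Matrix.mul_assoc, hX2]
      rw [a1, a2]
    rw [e1, hFX, ← hXd, Matrix.mul_sub, Matrix.sub_mul]
    congr 1
    · calc b * (h * F X) * c' = b * h * F X * c' := by simp only [Matrix.mul_assoc]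
        _ = b * (c' * b) * h * F X * c' := by rw [k1]
        _ = b * (c' * b * h) * F X * c' := by simp only [Matrix.mul_assoc]
        _ = b * (h * (c' * b)) * F X * c' := by rw [hcomm]
        _ = b * h * c' * (b * F X * c') := by simp only [Matrix.mul_assoc]
    · calc b * (F X * h) * c' = b * F X * h * c' := by simp only [Matrix.mul_assoc]
        _ = b * F X * h * (c' * b) * c' := by rw [k2]
        _ = b * F X * (h * (c' * b)) * c' := by simp only [Matrix.mul_assoc]
        _ = b * F X * (c' * b * h) * c' := by rw [hcomm]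
        _ = b * F X * c' * (b * h * c') := by simp only [Matrix.mul_assoc]
  · show b * F (c' * (b * P 2 * c' - b * P 0 * c') * b) * c' = c • (b * P 2 * c' - b * P 0 * c')
    rw [hr]
    rw [← hhd, hcb] at hFh
    have e1 : c' * (b * h * c') * b = c' * b * h := by
      calc c' * (b * h * c') * b = c' * b * (h * (c' * b)) := by simp only [Matrix.mul_assoc]
        _ = c' * (b * c') * b * h := by rw [← hcomm]; simp only [Matrix.mul_assoc]
        _ = c' * b * h := by rw [hbc, Matrix.mul_one]
    rw [e1, hFh, Matrix.mul_smul, Matrix.smul_mul]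
    congr 2
    rw [← Matrix.mul_assoc, k1]
  · show finrank ℂ (LinearMap.range (resL F b c')) < 2 * (b * P 2 * c').rank * (b * P 1 * c').rank
    rw [hb, hc', rank_restrict h1 hc, rank_restrict h1 hc]
    refine lt_of_le_of_lt ?_ hrk
    have hle : LinearMap.range (resL F (cC B) (cC C)) ≤ (LinearMap.range F).map (sandL (cC B) (cC C)) := by
      rintro _ ⟨Y, rfl⟩
      exact ⟨F (cC C * Y * cC B), ⟨_, rfl⟩, rfl⟩
    exact (Submodule.finrank_mono hle).trans (Submodule.finrank_map_le _ _)

end SH94
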