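import Mathlib

/-!
Sharpness of the theorem on Hodge structures with a prime extreme Hodge number (MP_b8862a_ag), common part:
idempotent matrices are products `C * B` with `B * C = 1`; tensors of type `(2, 2)` as linear maps of matrices.
-/

open Matrix Module

namespace SH94

/-- an idempotent matrix of rank `d` factors through `K ^ d` -/
theorem exists_fact {K N : Type*} [Field K] [Fintype N] [DecidableEq N] {e : Matrix N N K} (he : e * e = e) :
    ∃ (B : Matrix (Fin e.rank) N K) (C : Matrix N (Fin e.rank) K), B * C = 1 ∧ C * B = e := by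
  classical
  let V : Submodule K (N → K) := LinearMap.range (Matrix.toLin' e)
  have hV : finrank K V = e.rank := rfl
  let b : Basis (Fin e.rank) K V := finBasisOfFinrankEq K V hV
  let π : (N → K) →ₗ[K] V := (Matrix.toLin' e).rangeRestrict
  let f : (N → K) →ₗ[K] (Fin e.rank → K) := (b.equivFun : V →ₗ[K] _) ∘ₗ π
  let g : (Fin e.rank → K) →ₗ[K] (N → K) := V.subtype ∘ₗ (b.equivFun.symm : _ →ₗ[K] V)
  have hid : ∀ v : V, π (v : N → K) = v := by
    rintro ⟨v, w, rfl⟩
    apply Subtype.ext
    show Matrix.toLin' e (Matrix.toLin' e w) = Matrix.toLin' e w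
    rw [← LinearMap.comp_apply, ← Matrix.toLin'_mul, he]
  refine ⟨LinearMap.toMatrix' f, LinearMap.toMatrix' g, ?_, ?_⟩
  · rw [← LinearMap.toMatrix'_comp, ← LinearMap.toMatrix'_id]
    congr 1
    apply LinearMap.ext
    intro x
    show b.equivFun (π ((b.equivFun.symm x : V) : N → K)) = x
    rw [hid, LinearEquiv.apply_symm_apply]
  · rw [← LinearMap.toMatrix'_comp]
    conv_rhs => rw [← LinearMap.toMatrix'_toLin' e]
    congr 1
    apply LinearMap.ext
    intro x
    show ((b.equivFun.symm (b.equivFun (π x)) : V) : N → K) = Matrix.toLin' e x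
    rw [LinearEquiv.symm_apply_apply]
    rfl

section ten

variable {R n : Type*} [CommRing R] [Fintype n] [DecidableEq n]

/-- the coefficients of a linear map of matrices, as a function on multi-indices -/
def ten (F : Matrix n n R →ₗ[R] Matrix n n R) : (Fin 2 ⊕ Fin 2 → n) → R :=
  fun i => F (Matrix.single (i (Sum.inr 1)) (i (Sum.inl 1)) 1) (i (Sum.inl 0)) (i (Sum.inr 0))

/-- the multi-index with the entries `a, d` above and `b, c` below -/
def mi (a d b c : n) : Fin 2 ⊕ Fin 2 → n := Sum.elim ![a, d] ![b, c]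

omit [Fintype n] in
theorem ten_mi (F : Matrix n n R →ₗ[R] Matrix n n R) (a d b c : n) :
    ten F (mi a d b c) = F (Matrix.single c d 1) a b := rfl

theorem expand (F : Matrix n n R →ₗ[R] Matrix n n R) (X : Matrix n n R) (a b : n) :
    F X a b = ∑ c, ∑ d, X c d * ten F (mi a d b c) := by
  conv_lhs => rw [Matrix.matrix_eq_sum_single X]
  rw [map_sum, Matrix.sum_apply]
  refine Finset.sum_congr rfl fun c _ => ?_
  rw [map_sum, Matrix.sum_apply]
  refine Finset.sum_congr rfl fun d _ => ?_
  have h1 : Matrix.single c d (X c d) = X c d • Matrix.single c d (1 : R) := by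
    rw [Matrix.smul_single, smul_eq_mul, mul_one]
  rw [h1, map_smul, Matrix.smul_apply, smul_eq_mul, ten_mi]

theorem ten_inj {F G : Matrix n n R →ₗ[R] Matrix n n R} (h : ten F = ten G) : F = G := by
  apply LinearMap.ext
  intro X
  ext a b
  rw [expand, expand, h]

omit [Fintype n] [DecidableEq n] in
theorem eq_mi (i : Fin 2 ⊕ Fin 2 → n) : i = mi (i (Sum.inl 0)) (i (Sum.inl 1)) (i (Sum.inr 0)) (i (Sum.inr 1)) := by
  funext k
  rcases k with k | k <;> fin_cases k <;> rfl

omit [DecidableEq n] in
/-- a sum over multi-indices -/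
theorem sum_mi (f : (Fin 2 ⊕ Fin 2 → n) → R) : ∑ i, f i = ∑ a, ∑ d, ∑ b, ∑ c, f (mi a d b c) := by
  let E : (Fin 2 ⊕ Fin 2 → n) ≃ (n × n) × (n × n) :=
    { toFun := fun i => ((i (Sum.inl 0), i (Sum.inl 1)), (i (Sum.inr 0), i (Sum.inr 1)))
      invFun := fun p => mi p.1.1 p.1.2 p.2.1 p.2.2
      left_inv := fun i => (eq_mi i).symm
      right_inv := fun p => rfl }
  rw [← E.symm.sum_comp, Fintype.sum_prod_type, Fintype.sum_prod_type]
  refine Finset.sum_congr rfl fun a _ => Finset.sum_congr rfl fun d _ => ?_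
  rw [Fintype.sum_prod_type]
  rfl

end ten

end SH94
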