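import Pool.Agent.Helper94.SH.Fam5

/-!
PrimeGeometricGenus (MP_b8862a_ag), construction (5): Hodge numbers `(3, 8, 3)`, the primitive part of the exterior square
of a structure of weight one and genus three.
-/

set_option linter.unusedSectionVars false

open Matrix Module
open scoped Kronecker

namespace SH94

open MH MH.PGN

/-- the parameter space -/
abbrev T5 : Type := Fin 3 → Fin 3 → ℝ

/-- the symmetric matrix of a parameter -/
def X5 (t : T5) : Matrix (Fin 3) (Fin 3) ℝ := Matrix.of t + (Matrix.of t)ᵀ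

theorem X5_tr (t : T5) : (X5 t)ᵀ = X5 t := by
  rw [X5, Matrix.transpose_add, Matrix.transpose_transpose, add_comm]

/-- the complexification -/
noncomputable def Z5 (t : T5) : Matrix (Fin 3) (Fin 3) ℂ := (X5 t).map Complex.ofRealHom

theorem Z5_tr (t : T5) : (Z5 t)ᵀ = Z5 t := by
  rw [Z5, ← Matrix.transpose_map, X5_tr]

theorem Z5_conj (t : T5) : (Z5 t).map (starRingEnd ℂ) = Z5 t := by
  ext i j
  simp [Z5]

theorem uu_map {R R' : Type*} [CommRing R] [CommRing R'] (f : R →+* R') (X : Matrix (Fin 3) (Fin 3) R) :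
    (uu X).map f = uu (X.map f) := by
  rw [uu, uu, Matrix.fromBlocks_map]
  congr 1
  · exact Matrix.map_one _ (map_zero f) (map_one f)
  · exact Matrix.map_zero _ (map_zero f)
  · exact Matrix.map_one _ (map_zero f) (map_one f)

theorem kron_map {R R' : Type*} [CommRing R] [CommRing R'] (f : R →+* R') (A B : Matrix W W R) :
    (A ⊗ₖ B).map f = (A.map f) ⊗ₖ (B.map f) := by
  ext p q
  simp

/-- the transporting isometry -/
noncomputable def g5 (t : T5) : Matrix (W × W) (W × W) ℂ := uu (Z5 t) ⊗ₖ uu (Z5 t)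

/-- its inverse -/
noncomputable def h5 (t : T5) : Matrix (W × W) (W × W) ℂ := uu (-Z5 t) ⊗ₖ uu (-Z5 t)

theorem g5_h5 (t : T5) : g5 t * h5 t = 1 := by
  rw [g5, h5, kron_sq, uu_inv, Matrix.one_kronecker_one]

theorem h5_g5 (t : T5) : h5 t * g5 t = 1 := by
  rw [g5, h5, kron_sq, uu_inv', Matrix.one_kronecker_one]

theorem g5_conj (t : T5) : (g5 t).map (starRingEnd ℂ) = g5 t := by
  rw [g5, kron_map, uu_map, Z5_conj]

theorem g5_iso (t : T5) : (g5 t)ᵀ * toC Q5 * g5 t = toC Q5 := by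
  rw [g5, toC_Q5, ← Matrix.kroneckerMap_transpose, kron_sq, kron_sq, uu_iso (Z5_tr t)]

theorem g5_e6 (t : T5) : g5 t * e6 ℂ = e6 ℂ * g5 t := e6_kron (uu_iso' (Z5_tr t)) (uu_iso (Z5_tr t))

theorem h5_e6 (t : T5) : h5 t * e6 ℂ = e6 ℂ * h5 t := by
  have hz : (-Z5 t)ᵀ = -Z5 t := by rw [Matrix.transpose_neg, Z5_tr]
  exact e6_kron (uu_iso' hz) (uu_iso hz)

/-- the Hodge projections of the family -/
noncomputable def PP5 (t : T5) (p : ℤ) : Matrix (W × W) (W × W) ℂ := g5 t * P5 p * h5 t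

theorem isHW5 (t : T5) : IsHW 2 Q5 {0, 1, 2} (PP5 t) :=
  base5.conj27 (g5_h5 t) (h5_g5 t) (g5_conj t) (g5_iso t)

theorem toC_e6 : toC (e6 ℚ) = e6 ℂ := e6_map (algebraMap ℚ ℂ)

/-! ### the base point and the idempotent -/

theorem P5_E (p : ℤ) : P5 p * E ℂ = if p = 1 then E ℂ else 0 := by
  have h1 : q1 * psi ℂ * q1ᵀ = 0 := by rw [q1_tr, q1_psi, Matrix.smul_mul, q10, smul_zero]
  have h2 : q0 * psi ℂ * q0ᵀ = 0 := by rw [q0_tr, q0_psi, Matrix.smul_mul, q01, smul_zero]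
  have h3 : q1 * psi ℂ * q0ᵀ + q0 * psi ℂ * q1ᵀ = psi ℂ := by
    rw [q0_tr, q1_tr, mul_assoc, mul_assoc, psi_q1, psi_q0, Matrix.mul_smul, Matrix.mul_smul, q1_sq, q0_sq, ← psi_q1,
      ← psi_q0, ← mul_add, q_add, Matrix.mul_one]
  by_cases hp : p ∈ ({0, 1, 2} : Finset ℤ)
  · simp only [Finset.mem_insert, Finset.mem_singleton] at hp
    rcases hp with rfl | rfl | rfl
    · rw [P5_zero, E_eq, kron_E', h2, E'_zero_left, if_neg (by norm_num)]
    · rw [P5_one, E_eq, add_mul, kron_E', kron_E', ← E'_add_left, h3, if_pos rfl]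
    · rw [P5_two, E_eq, kron_E', h1, E'_zero_left, if_neg (by norm_num)]
  · rw [P5_else hp, Matrix.zero_mul, if_neg]
    rintro rfl
    exact hp (by decide)

theorem E_P5 (p : ℤ) : E ℂ * P5 p = if p = 1 then E ℂ else 0 := by
  have h1 : q1ᵀ * psi ℂ * q1 = 0 := by rw [q1_tr, q0_psi, Matrix.smul_mul, q01, smul_zero]
  have h2 : q0ᵀ * psi ℂ * q0 = 0 := by rw [q0_tr, q1_psi, Matrix.smul_mul, q10, smul_zero]
  have h3 : q1ᵀ * psi ℂ * q0 + q0ᵀ * psi ℂ * q1 = psi ℂ := by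
    rw [q0_tr, q1_tr, mul_assoc, mul_assoc, psi_q1, psi_q0, Matrix.mul_smul, Matrix.mul_smul, q1_sq, q0_sq, ← psi_q1,
      ← psi_q0, ← mul_add, add_comm q0 q1, q_add, Matrix.mul_one]
  by_cases hp : p ∈ ({0, 1, 2} : Finset ℤ)
  · simp only [Finset.mem_insert, Finset.mem_singleton] at hp
    rcases hp with rfl | rfl | rfl
    · rw [P5_zero, E_eq, E'_kron, h2, E'_zero_right, if_neg (by norm_num)]
    · rw [P5_one, E_eq, mul_add, E'_kron, E'_kron, ← E'_add_right, h3, if_pos rfl]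
    · rw [P5_two, E_eq, E'_kron, h1, E'_zero_right, if_neg (by norm_num)]
  · rw [P5_else hp, Matrix.mul_zero, if_neg]
    rintro rfl
    exact hp (by decide)

theorem P5_T (p : ℤ) : P5 p * T W ℂ = T W ℂ * P5 p := by
  by_cases hp : p ∈ ({0, 1, 2} : Finset ℤ)
  · simp only [Finset.mem_insert, Finset.mem_singleton] at hp
    rcases hp with rfl | rfl | rfl
    · rw [P5_zero, T_kron]
    · rw [P5_one, mul_add, add_mul, T_kron, T_kron, add_comm]
    · rw [P5_two, T_kron]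
  · rw [P5_else hp, Matrix.mul_zero, Matrix.zero_mul]

theorem P5_e6 (p : ℤ) : P5 p * e6 ℂ = e6 ℂ * P5 p := by
  unfold e6
  rw [mul_sub, sub_mul, Matrix.mul_smul, Matrix.smul_mul, mul_sub, sub_mul, Matrix.mul_one, Matrix.one_mul, P5_T, P5_E,
    E_P5]

theorem PP5_e6 (t : T5) (p : ℤ) : PP5 t p * e6 ℂ = e6 ℂ * PP5 t p := by
  unfold PP5
  rw [mul_assoc (g5 t * P5 p), h5_e6, ← mul_assoc, mul_assoc (g5 t), P5_e6, ← mul_assoc (g5 t), g5_e6]
  simp only [mul_assoc]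

theorem trace_T (A B : Matrix W W ℂ) : (A ⊗ₖ B * T W ℂ).trace = (A * B).trace := by
  have h : ∀ p, (A ⊗ₖ B * T W ℂ) p p = A p.1 p.2 * B p.2 p.1 := by
    intro p
    rw [mul_T_apply, Matrix.kroneckerMap_apply, Prod.fst_swap, Prod.snd_swap]
  simp only [Matrix.trace, Matrix.diag_apply, h, Matrix.mul_apply]
  rw [Fintype.sum_prod_type]

theorem q1_trace : q1.trace = 3 := by
  rw [q1, Matrix.trace_smul, Matrix.trace_add, Matrix.trace_smul, psi_trace, Matrix.trace_one]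
  simp
  norm_num

theorem q0_trace : q0.trace = 3 := by
  rw [q0_eq, Matrix.trace_sub, q1_trace, Matrix.trace_one]
  simp
  norm_num

theorem E_trace : (E ℂ).trace = 1 := by
  rw [E_eq, E'_trace, psi_tr, Matrix.neg_mul, psi_sq, neg_neg, Matrix.trace_one]
  simp

theorem trace_P5 (p : ℤ) : (P5 p * e6 ℂ).trace =
    1 / 2 * ((P5 p).trace - (P5 p * T W ℂ).trace) - if p = 1 then 1 else 0 := by
  unfold e6
  rw [mul_sub, Matrix.mul_smul, mul_sub, Matrix.mul_one, Matrix.trace_sub, Matrix.trace_smul, Matrix.trace_sub, P5_E,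
    smul_eq_mul]
  split_ifs
  · rw [E_trace]
  · rw [Matrix.trace_zero]

theorem idem_P5 (p : ℤ) : P5 p * e6 ℂ * (P5 p * e6 ℂ) = P5 p * e6 ℂ := by
  calc P5 p * e6 ℂ * (P5 p * e6 ℂ) = P5 p * (e6 ℂ * P5 p) * e6 ℂ := by simp only [mul_assoc]
    _ = (P5 p * P5 p) * (e6 ℂ * e6 ℂ) := by rw [← P5_e6]; simp only [mul_assoc]
    _ = P5 p * e6 ℂ := by rw [P5_mul, if_pos rfl, e6_idem]

theorem rank_two : (P5 2 * e6 ℂ).rank = 3 := by
  have h := trace_eq_rank (idem_P5 2)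
  rw [trace_P5, if_neg (by norm_num), P5_two, trace_T, Matrix.trace_kronecker, q1_sq, q1_trace] at h
  have h2 : (((P5 2 * e6 ℂ).rank : ℕ) : ℂ) = ((3 : ℕ) : ℂ) := by
    rw [P5_two, ← h]
    norm_num
  exact_mod_cast h2

theorem rank_zero' : (P5 0 * e6 ℂ).rank = 3 := by
  have h := trace_eq_rank (idem_P5 0)
  rw [trace_P5, if_neg (by norm_num), P5_zero, trace_T, Matrix.trace_kronecker, q0_sq, q0_trace] at h
  have h2 : (((P5 0 * e6 ℂ).rank : ℕ) : ℂ) = ((3 : ℕ) : ℂ) := by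
    rw [P5_zero, ← h]
    norm_num
  exact_mod_cast h2

theorem rank_one' : (P5 1 * e6 ℂ).rank = 8 := by
  have h := trace_eq_rank (idem_P5 1)
  rw [trace_P5, if_pos rfl, P5_one, add_mul, Matrix.trace_add, Matrix.trace_add, trace_T, trace_T,
    Matrix.trace_kronecker, Matrix.trace_kronecker, q10, q01, q0_trace, q1_trace, Matrix.trace_zero] at h
  have h2 : (((P5 1 * e6 ℂ).rank : ℕ) : ℂ) = ((8 : ℕ) : ℂ) := by
    rw [P5_one, ← h]
    norm_num
  exact_mod_cast h2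

theorem rank_PP5 (t : T5) (p : ℤ) : (PP5 t p * e6 ℂ).rank = (P5 p * e6 ℂ).rank := by
  have h : PP5 t p * e6 ℂ = g5 t * (P5 p * e6 ℂ) * h5 t := by
    unfold PP5
    rw [mul_assoc (g5 t * P5 p), h5_e6]
    simp only [mul_assoc]
  rw [h]
  exact rank_conj27 (g5_h5 t) (h5_g5 t) _

/-! ### the Hodge cocharacter -/

theorem base_h : P5 2 - P5 0 = (Complex.I / 2) • D (psi ℂ) := by
  have h : (Complex.I / 2) • D (psi ℂ) = (1 / 2 : ℂ) • D (Complex.I • psi ℂ) := by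
    rw [D_smul, smul_smul]
    congr 1
    ring
  have h1 : Complex.I • psi ℂ = q1 - q0 := by
    rw [q1, q0, ← smul_sub, add_sub_sub_cancel, ← two_smul ℂ (Complex.I • psi ℂ), smul_smul]
    norm_num
  rw [h, h1, P5_two, P5_zero, D]
  rw [← q_add]
  simp only [sub_eq_add_neg, Matrix.add_kronecker, Matrix.kronecker_add]
  have n1 : ∀ A B : Matrix W W ℂ, (-A) ⊗ₖ B = -(A ⊗ₖ B) := by
    intro A B
    ext p q
    simp
  have n2 : ∀ A B : Matrix W W ℂ, A ⊗ₖ (-B) = -(A ⊗ₖ B) := by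
    intro A B
    ext p q
    simp
  simp only [n1, n2]
  have h2 : q1 ⊗ₖ q1 + -q0 ⊗ₖ q1 + (q1 ⊗ₖ q0 + -q0 ⊗ₖ q0) + (q1 ⊗ₖ q1 + q0 ⊗ₖ q1 + (-q1 ⊗ₖ q0 + -q0 ⊗ₖ q0)) =
      (2 : ℂ) • (q1 ⊗ₖ q1 + -q0 ⊗ₖ q0) := by
    rw [two_smul]
    abel
  rw [h2, smul_smul]
  norm_num

theorem PP5_h (t : T5) : PP5 t 2 - PP5 t 0 = (Complex.I / 2) • D (JJ (Z5 t)) := by
  unfold PP5
  rw [← sub_mul, ← mul_sub, base_h, mul_smul_comm, smul_mul_assoc, g5, h5, D_conj (uu_inv _), uu_psi]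

theorem rC_D (X : Matrix (Fin 3) (Fin 3) ℝ) : rC (D (JJ X)) = D (JJ (X.map Complex.ofRealHom)) := by
  have h1 : (JJ X).map Complex.ofRealHom = JJ (X.map Complex.ofRealHom) := by
    rw [JJ, JJ, Matrix.fromBlocks_map]
    congr 1
    · ext i j
      simp
    · ext i j
      simp only [Matrix.map_apply, Matrix.add_apply, Matrix.mul_apply, Matrix.one_apply, map_add, map_sum, map_mul]
      split_ifs <;> simp
    · ext i j
      simp only [Matrix.map_apply, Matrix.neg_apply, Matrix.one_apply, map_neg]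
      split_ifs <;> simp
  rw [← h1, ← D_map]
  rfl

theorem rC_inj {m : Type*} [Fintype m] [DecidableEq m] {A B : Matrix m m ℝ} (h : rC A = rC B) : A = B := by
  ext i j
  have := congrFun (congrFun h i) j
  simpa [rC] using this

/-- the commutant of the family in the primitive part is the scalars -/
theorem gen5 {U : Set T5} (hU : IsOpen U) (hne : U.Nonempty) {A : Matrix (W × W) (W × W) ℚ}
    (hA : e6 ℚ * A * e6 ℚ = A) (h : ∀ t ∈ U, ∀ p, toC A * PP5 t p = PP5 t p * toC A) : ∃ c : ℚ, A = c • e6 ℚ := by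
  have h1 : ∀ t ∈ U, A.map (algebraMap ℚ ℝ) * D (JJ (Matrix.of t + (Matrix.of t)ᵀ)) =
      D (JJ (Matrix.of t + (Matrix.of t)ᵀ)) * A.map (algebraMap ℚ ℝ) := by
    intro t ht
    apply rC_inj
    rw [rC_mul, rC_mul, rC_rat, rC_D]
    have h2 : toC A * (PP5 t 2 - PP5 t 0) = (PP5 t 2 - PP5 t 0) * toC A := by
      rw [mul_sub, sub_mul, h t ht, h t ht]
    rw [PP5_h, mul_smul_comm, smul_mul_assoc] at h2
    exact smul_right_injective _ (div_ne_zero Complex.I_ne_zero two_ne_zero) h2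
  obtain ⟨k1, k2⟩ := comm_all hU hne h1
  have hm : ∀ Y : Matrix W W ℚ, A.map (algebraMap ℚ ℝ) * D (Y.map (algebraMap ℚ ℝ)) =
      D (Y.map (algebraMap ℚ ℝ)) * A.map (algebraMap ℚ ℝ) → A * D Y = D Y * A := by
    intro Y hY
    rw [← D_map, ← Matrix.map_mul, ← Matrix.map_mul] at hY
    ext i j
    have := congrFun (congrFun hY i) j
    simp only [Matrix.map_apply] at this
    exact (algebraMap ℚ ℝ).injective this
  refine end5 hA (fun S hS => hm _ ?_) (fun S hS => hm _ ?_)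
  · have e : (nU S).map (algebraMap ℚ ℝ) = nU (S.map (algebraMap ℚ ℝ)) := by
      rw [nU, nU, Matrix.fromBlocks_map]
      congr 1 <;> exact Matrix.map_zero _ (map_zero _)
    rw [e]
    exact k1 _ (by rw [← Matrix.transpose_map, hS])
  · have e : (nL S).map (algebraMap ℚ ℝ) = nL (S.map (algebraMap ℚ ℝ)) := by
      rw [nL, nL, Matrix.fromBlocks_map]
      congr 1 <;> exact Matrix.map_zero _ (map_zero _)
    rw [e]
    exact k2 _ (by rw [← Matrix.transpose_map, hS])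

/-! ### the rational equivariant map -/

/-- `Z ↦ e D(Z) e` -/
noncomputable def G5 : Matrix W W ℂ →ₗ[ℂ] Matrix (W × W) (W × W) ℂ where
  toFun Z := e6 ℂ * D Z * e6 ℂ
  map_add' X Y := by rw [D_add, mul_add, add_mul]
  map_smul' c X := by rw [D_smul, mul_smul_comm, smul_mul_assoc, RingHom.id_apply]

/-- `M ↦ tr₂(e M e)` -/
noncomputable def K5 : Matrix (W × W) (W × W) ℂ →ₗ[ℂ] Matrix W W ℂ where
  toFun M := tr2 (e6 ℂ * M * e6 ℂ)
  map_add' X Y := by rw [mul_add, add_mul, map_add]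
  map_smul' c X := by rw [mul_smul_comm, smul_mul_assoc, map_smul, RingHom.id_apply]

theorem F5_rat (A : Matrix (W × W) (W × W) ℚ) : ∃ A' : Matrix (W × W) (W × W) ℚ, (G5 ∘ₗ K5) (toC A) = toC A' := by
  refine ⟨e6 ℚ * D (tr2 (e6 ℚ * A * e6 ℚ)) * e6 ℚ, ?_⟩
  show e6 ℂ * D (tr2 (e6 ℂ * toC A * e6 ℂ)) * e6 ℂ = _
  have h1 : e6 ℂ * toC A * e6 ℂ = cC (e6 ℚ * A * e6 ℚ) := by
    rw [cC_mul, cC_mul]
    congr 1
    · congr 1
      exact toC_e6.symm
    · exact toC_e6.symm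
  have h2 : tr2 (cC (e6 ℚ * A * e6 ℚ)) = cC (tr2 (e6 ℚ * A * e6 ℚ)) := by
    ext i k
    rw [tr2_apply]
    show _ = algebraMap ℚ ℂ (tr2 (e6 ℚ * A * e6 ℚ) i k)
    rw [tr2_apply, map_sum]
    rfl
  have h3 : D (cC (tr2 (e6 ℚ * A * e6 ℚ))) = cC (D (tr2 (e6 ℚ * A * e6 ℚ))) := (D_map (algebraMap ℚ ℂ) _).symm
  rw [h1, h2, h3]
  show _ = cC _
  rw [cC_mul, cC_mul]
  congr 1
  · congr 1
    exact toC_e6.symm
  · exact toC_e6.symm

theorem F5_rank : finrank ℂ (LinearMap.range (G5 ∘ₗ K5)) ≤ 36 := by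
  refine (Submodule.finrank_mono (LinearMap.range_comp_le_range _ _)).trans ((LinearMap.finrank_range_le _).trans ?_)
  rw [Module.finrank_matrix, finrank_self]
  simp

/-- Hodge numbers `(3, 8, 3)` -/
theorem sharp_three_eight : ∃ (n : Type) (_ : Fintype n) (_ : DecidableEq n) (Q : Matrix n n ℚ)
    (P : ℤ → Matrix n n ℂ), IsHW 2 Q {0, 1, 2} P ∧
      (∀ A : Matrix n n ℚ, (∀ p, toC A * P p = P p * toC A) → ∃ c : ℚ, A = c • (1 : Matrix n n ℚ)) ∧
      (P 2).rank = 3 ∧ (P 1).rank = 8 ∧ (P 0).rank = 3 ∧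
      ∃ g : GL n ℂ, (g : Matrix n n ℂ)ᵀ * toC Q * (g : Matrix n n ℂ) = toC Q ∧ (g : Matrix n n ℂ).det = 1 ∧
        g ∉ MT {0, 1, 2} P := by
  obtain ⟨B, C, h1, h2⟩ := exists_fact (e6_idem (K := ℚ))
  have hcb : toC (C * B) = e6 ℂ := by rw [h2, toC_e6]
  have hc : ∀ t p, toC (C * B) * PP5 t p = PP5 t p * toC (C * B) := by
    intro t p
    rw [hcb, PP5_e6]
  -- a generic parameter
  obtain ⟨t, ht⟩ := exists_generic27 (T := T5) (fun t p => cC B * PP5 t p * cC C) (by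
    intro p
    have hu : Continuous fun t : T5 => uu (Z5 t) := by
      refine continuous_matrix fun i j => ?_
      rcases i with i | i <;> rcases j with j | j
      · exact continuous_const
      · show Continuous fun t : T5 => (((t i j + t j i : ℝ)) : ℂ)
        fun_prop
      · exact continuous_const
      · exact continuous_const
    have hu' : Continuous fun t : T5 => uu (-Z5 t) := by
      refine continuous_matrix fun i j => ?_
      rcases i with i | i <;> rcases j with j | j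
      · exact continuous_const
      · show Continuous fun t : T5 => -(((t i j + t j i : ℝ)) : ℂ)
        fun_prop
      · exact continuous_const
      · exact continuous_const
    have hg : Continuous fun t : T5 => g5 t := by
      refine continuous_matrix fun p q => ?_
      exact (hu.matrix_elem p.1 q.1).mul (hu.matrix_elem p.2 q.2)
    have hh : Continuous fun t : T5 => h5 t := by
      refine continuous_matrix fun p q => ?_
      exact (hu'.matrix_elem p.1 q.1).mul (hu'.matrix_elem p.2 q.2)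
    exact (continuous_const.matrix_mul ((hg.matrix_mul continuous_const).matrix_mul hh)).matrix_mul
      continuous_const) (by
    intro U hU hne A hA
    have h3 := end_restrict (P := fun x : U × ℤ => PP5 x.1 x.2) h1 (fun x => hc x.1 x.2) (fun A' hA' hcomm => by
      rw [h2] at hA' ⊢
      exact gen5 hU hne hA' fun t ht p => hcomm (⟨t, ht⟩, p)) A (fun x => hA x.1 x.1.2 x.2)
    exact h3)
  refine ⟨Fin (e6 ℚ).rank, inferInstance, inferInstance, Cᵀ * Q5 * C, fun p => cC B * PP5 t p * cC C,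
    restrict (isHW5 t) h1 (hc t), ht, ?_, ?_, ?_, ?_⟩
  · show (cC B * PP5 t 2 * cC C).rank = 3
    rw [rank_restrict h1 (hc t), hcb, rank_PP5, rank_two]
  · show (cC B * PP5 t 1 * cC C).rank = 8
    rw [rank_restrict h1 (hc t), hcb, rank_PP5, rank_one']
  · show (cC B * PP5 t 0 * cC C).rank = 3
    rw [rank_restrict h1 (hc t), hcb, rank_PP5, rank_zero']
  · have hs1 : JJ (Z5 t) * psi ℂ + psi ℂ * (JJ (Z5 t))ᵀ = 0 := JJ_psi (Z5_tr t)
    have hs2 : (JJ (Z5 t))ᵀ * psi ℂ + psi ℂ * JJ (Z5 t) = 0 := psi_JJ (Z5_tr t)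
    obtain ⟨Y, hY⟩ : ∃ Y, Y = (Complex.I / 2) • JJ (Z5 t) := ⟨_, rfl⟩
    have hh : PP5 t 2 - PP5 t 0 = D Y := by rw [PP5_h, hY, D_smul]
    have hY1 : Y * psi ℂ + psi ℂ * Yᵀ = 0 := by
      rw [hY, Matrix.transpose_smul, smul_mul_assoc, mul_smul_comm, ← smul_add, hs1, smul_zero]
    have hY2 : Yᵀ * psi ℂ + psi ℂ * Y = 0 := by
      rw [hY, Matrix.transpose_smul, smul_mul_assoc, mul_smul_comm, ← smul_add, hs2, smul_zero]
    have hY3 : Y.trace = 0 := by rw [hY, Matrix.trace_smul, JJ_trace, smul_zero]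
    have hYe : D Y * e6 ℂ = e6 ℂ * D Y := e6_D hY1 hY2
    have hee : e6 ℂ * e6 ℂ = e6 ℂ := e6_idem
    refine not_mem_restrict (isHW5 t) h1 (hc t) (G5 ∘ₗ K5) F5_rat ?_ (c := 2) two_ne_zero ?_ ?_
    · intro X hX
      rw [hcb] at hX
      rw [hh]
      show e6 ℂ * D (tr2 (e6 ℂ * (D Y * X - X * D Y) * e6 ℂ)) * e6 ℂ =
        D Y * (e6 ℂ * D (tr2 (e6 ℂ * X * e6 ℂ)) * e6 ℂ) - e6 ℂ * D (tr2 (e6 ℂ * X * e6 ℂ)) * e6 ℂ * D Y
      have hX1 : e6 ℂ * X = X := by
        rw [← hX, ← mul_assoc, ← mul_assoc, hee]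
      have hX2 : X * e6 ℂ = X := by
        rw [← hX, mul_assoc, hee]
      have e1 : e6 ℂ * (D Y * X - X * D Y) * e6 ℂ = D Y * X - X * D Y := by
        rw [mul_sub, sub_mul, ← mul_assoc, ← hYe, mul_assoc (D Y), hX1, mul_assoc (D Y), hX2, ← mul_assoc (e6 ℂ), hX1,
          mul_assoc X, hYe, ← mul_assoc X, hX2]
      rw [e1, hX, tr2_brk, D_brk, mul_sub, sub_mul]
      congr 1
      · rw [← mul_assoc (e6 ℂ), ← hYe]
        simp only [mul_assoc]
      · rw [← mul_assoc (e6 ℂ), mul_assoc (e6 ℂ * D (tr2 X)), hYe]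
        simp only [mul_assoc]
    · rw [hcb, hh]
      show e6 ℂ * D (tr2 (e6 ℂ * (e6 ℂ * D Y) * e6 ℂ)) * e6 ℂ = (2 : ℂ) • (e6 ℂ * D Y)
      have e1 : e6 ℂ * (e6 ℂ * D Y) * e6 ℂ = e6 ℂ * D Y := by
        rw [← mul_assoc, hee, mul_assoc, hYe, ← mul_assoc, hee]
      rw [e1, tr2_e6_D hY2 hY3, D_smul, mul_smul_comm, smul_mul_assoc, mul_assoc, hYe, ← mul_assoc, hee]
    · rw [hcb, rank_PP5, rank_PP5, rank_two, rank_one']
      exact F5_rank.trans_lt (by norm_num)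

end SH94
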