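import Pool.Agent.Helper94.SH.Fact
import Pool.Agent.Helper14.GH.HW
import Pool.Agent.Helper21.MH.Hodge

/-!
Sharpness of the theorem on Hodge structures with a prime extreme Hodge number (MP_b8862a_ag), common part:
a rational linear map of matrices which commutes with the Hodge cocharacter commutes with the Mumford-Tate group.
-/

open Matrix Module MH

namespace SH94

variable {n : Type*} [Fintype n] [DecidableEq n]

/-- `X ↦ g F(g' X g) g'` -/
def conjL {R : Type*} [CommRing R] (F : Matrix n n R →ₗ[R] Matrix n n R) (g g' : Matrix n n R) :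
    Matrix n n R →ₗ[R] Matrix n n R where
  toFun X := g * F (g' * X * g) * g'
  map_add' X Y := by rw [mul_add, add_mul, map_add, mul_add, add_mul]
  map_smul' c X := by
    rw [Matrix.mul_smul, Matrix.smul_mul, map_smul, Matrix.mul_smul, Matrix.smul_mul, RingHom.id_apply]

theorem actF_ten {R : Type*} [CommRing R] (F : Matrix n n R →ₗ[R] Matrix n n R) (g g' : Matrix n n R) :
    actF (slot 2 2 g g') (ten F) = ten (conjL F g g') := by
  funext i
  rw [eq_mi i]
  generalize i (Sum.inl 0) = a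
  generalize i (Sum.inl 1) = d
  generalize i (Sum.inr 0) = b
  generalize i (Sum.inr 1) = c
  rw [ten_mi]
  unfold actF
  rw [sum_mi]
  have e1 : ∀ a' d' b' c', (∏ k, slot 2 2 g g' k (mi a d b c k) (mi a' d' b' c' k)) =
      g a a' * g d d' * (g' b' b * g' c' c) := by
    intro a' d' b' c'
    rw [Fintype.prod_sum_type, Fin.prod_univ_two, Fin.prod_univ_two]
    rfl
  simp only [e1]
  have e2 : ∀ c' d', (g' * Matrix.single c d (1 : R) * g) c' d' = g' c' c * g d d' := by
    intro c' d'
    rw [Matrix.mul_apply, Finset.sum_eq_single d]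
    · rw [Matrix.mul_single_apply_same, mul_one]
    · intro y _ hy
      rw [Matrix.mul_single_apply_of_ne _ _ _ _ _ hy, zero_mul]
    · intro hd
      exact absurd (Finset.mem_univ d) hd
  have e3 : (g * F (g' * Matrix.single c d 1 * g) * g') a b =
      ∑ b', ∑ a', ∑ c', ∑ d', g a a' * g d d' * (g' b' b * g' c' c) * ten F (mi a' d' b' c') := by
    rw [Matrix.mul_apply]
    refine Finset.sum_congr rfl fun b' _ => ?_
    rw [Matrix.mul_apply, Finset.sum_mul]
    refine Finset.sum_congr rfl fun a' _ => ?_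
    rw [expand F, Finset.mul_sum, Finset.sum_mul]
    refine Finset.sum_congr rfl fun c' _ => ?_
    rw [Finset.mul_sum, Finset.sum_mul]
    refine Finset.sum_congr rfl fun d' _ => ?_
    rw [e2]
    ring
  show _ = (g * F (g' * Matrix.single c d 1 * g) * g') a b
  rw [e3]
  have e4 : ∀ a', (∑ d', ∑ b', ∑ c', g a a' * g d d' * (g' b' b * g' c' c) * ten F (mi a' d' b' c')) =
      ∑ b', ∑ c', ∑ d', g a a' * g d d' * (g' b' b * g' c' c) * ten F (mi a' d' b' c') := by
    intro a'
    rw [Finset.sum_comm]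
    exact Finset.sum_congr rfl fun b' _ => Finset.sum_comm
  simp only [e4]
  exact Finset.sum_comm

/-! ### equivariance for the torus -/

/-- the commutator with `h` -/
def adL (h : Matrix n n ℂ) : Module.End ℂ (Matrix n n ℂ) := LinearMap.mulLeft ℂ h - LinearMap.mulRight ℂ h

theorem adL_apply (h X : Matrix n n ℂ) : adL h X = h * X - X * h := rfl

theorem aeval_eig {M : Type*} [AddCommGroup M] [Module ℂ M] (D : Module.End ℂ M) {v : M} {c : ℂ} (h : D v = c • v)
    (p : Polynomial ℂ) : Polynomial.aeval D p v = p.eval c • v := by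
  induction p using Polynomial.induction_on with
  | C a => simp [Polynomial.aeval_C, Algebra.algebraMap_eq_smul_one]
  | add p q hp hq => rw [map_add, LinearMap.add_apply, hp, hq, Polynomial.eval_add, add_smul]
  | monomial k a ih =>
    have e : Polynomial.eval c (Polynomial.C a * Polynomial.X ^ (k + 1)) =
        c * Polynomial.eval c (Polynomial.C a * Polynomial.X ^ k) := by
      simp only [Polynomial.eval_mul, Polynomial.eval_C, Polynomial.eval_pow, Polynomial.eval_X]
      ring
    rw [e, pow_succ, ← mul_assoc, map_mul, Polynomial.aeval_X, Module.End.mul_apply, h, map_smul, ih, smul_smul]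

theorem commute_aeval {M : Type*} [AddCommGroup M] [Module ℂ M] {F D : Module.End ℂ M} (h : Commute F D)
    (p : Polynomial ℂ) : Commute F (Polynomial.aeval D p) := by
  induction p using Polynomial.induction_on with
  | C a =>
    rw [Polynomial.aeval_C]
    exact Algebra.commutes' a F |>.symm
  | add p q hp hq => rw [map_add]; exact hp.add_right hq
  | monomial k a ih =>
    rw [pow_succ, ← mul_assoc, map_mul, Polynomial.aeval_X]
    exact ih.mul_right h

/-- the Hodge cocharacter -/
noncomputable def coch (P : ℤ → Matrix n n ℂ) (z : ℂ) : Matrix n n ℂ := P 0 + z • P 1 + z ^ 2 • P 2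

omit [Fintype n] [DecidableEq n] in
theorem cochar_eq {P : ℤ → Matrix n n ℂ} (z : ℂ) : cochar {0, 1, 2} P z = coch P z := by
  unfold cochar coch
  rw [Finset.sum_insert (by decide), Finset.sum_insert (by decide), Finset.sum_singleton, zpow_zero, one_smul,
    zpow_one, ← add_assoc]
  rfl

/-- a linear map that commutes with the commutator with `P 2 - P 0` commutes with the torus -/
theorem comm_coch {P : ℤ → Matrix n n ℂ} (mul : ∀ p q, P p * P q = if p = q then P p else 0)
    (sum : P 0 + P 1 + P 2 = 1) (F : Matrix n n ℂ →ₗ[ℂ] Matrix n n ℂ)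
    (hF : ∀ X, F ((P 2 - P 0) * X - X * (P 2 - P 0)) = (P 2 - P 0) * F X - F X * (P 2 - P 0)) {z : ℂ} (hz : z ≠ 0)
    (X : Matrix n n ℂ) : F (coch P z * X * coch P z⁻¹) = coch P z * F X * coch P z⁻¹ := by
  set h := P 2 - P 0 with hh
  have hcomm : Commute F (adL h) := by
    apply LinearMap.ext
    intro X
    exact hF X
  -- an interpolation polynomial
  obtain ⟨p, hp⟩ : ∃ p : Polynomial ℂ, ∀ i ∈ ({0, 1, 2} : Finset ℤ), ∀ j ∈ ({0, 1, 2} : Finset ℤ),
      p.eval (((i - j : ℤ) : ℂ)) = z ^ i * z⁻¹ ^ j := by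
    refine ⟨Lagrange.interpolate ({-2, -1, 0, 1, 2} : Finset ℤ) (fun k => (k : ℂ)) (fun k => z ^ k), ?_⟩
    intro i hi j hj
    have hk : i - j ∈ ({-2, -1, 0, 1, 2} : Finset ℤ) := by
      simp only [Finset.mem_insert, Finset.mem_singleton] at hi hj ⊢
      omega
    rw [Lagrange.eval_interpolate_at_node _ (fun x _ y _ hxy => by exact_mod_cast hxy) hk, zpow_sub₀ hz, _root_.inv_zpow,
      div_eq_mul_inv]
  have hP : ∀ i ∈ ({0, 1, 2} : Finset ℤ), h * P i = ((i - 1 : ℤ) : ℂ) • P i := by
    intro i hi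
    simp only [Finset.mem_insert, Finset.mem_singleton] at hi
    rcases hi with rfl | rfl | rfl
    · rw [hh, sub_mul, mul, mul, if_neg (by decide), if_pos rfl]; simp
    · rw [hh, sub_mul, mul, mul, if_neg (by decide), if_neg (by decide)]; simp
    · rw [hh, sub_mul, mul, mul, if_pos rfl, if_neg (by decide)]; simp
  have hP' : ∀ i ∈ ({0, 1, 2} : Finset ℤ), P i * h = ((i - 1 : ℤ) : ℂ) • P i := by
    intro i hi
    simp only [Finset.mem_insert, Finset.mem_singleton] at hi
    rcases hi with rfl | rfl | rfl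
    · rw [hh, mul_sub, mul, mul, if_neg (by decide), if_pos rfl]; simp
    · rw [hh, mul_sub, mul, mul, if_neg (by decide), if_neg (by decide)]; simp
    · rw [hh, mul_sub, mul, mul, if_pos rfl, if_neg (by decide)]; simp
  have hsum : ∑ i ∈ ({0, 1, 2} : Finset ℤ), P i = 1 := by
    rw [Finset.sum_insert (by decide), Finset.sum_insert (by decide), Finset.sum_singleton, ← add_assoc, sum]
  have hco : ∀ z : ℂ, coch P z = ∑ i ∈ ({0, 1, 2} : Finset ℤ), z ^ i • P i := fun z => (cochar_eq z).symm
  have key : ∀ X : Matrix n n ℂ, coch P z * X * coch P z⁻¹ = Polynomial.aeval (adL h) p X := by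
    intro X
    have e1 : X = ∑ i ∈ ({0, 1, 2} : Finset ℤ), ∑ j ∈ ({0, 1, 2} : Finset ℤ), P i * X * P j := by
      simp_rw [← Finset.mul_sum, hsum, mul_one, ← Finset.sum_mul, hsum, one_mul]
    conv_rhs => rw [e1]
    rw [map_sum, hco, hco, Finset.sum_mul, Finset.sum_mul]
    refine Finset.sum_congr rfl fun i hi => ?_
    rw [map_sum, Finset.mul_sum]
    refine Finset.sum_congr rfl fun j hj => ?_
    rw [aeval_eig (adL h) (c := ((i - j : ℤ) : ℂ)), hp i hi j hj, Matrix.smul_mul, Matrix.mul_smul, Matrix.smul_mul,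
      smul_smul, mul_comm]
    rw [adL_apply, ← mul_assoc, ← mul_assoc, hP i hi, mul_assoc (P i * X), hP' j hj, Matrix.smul_mul, Matrix.smul_mul,
      Matrix.mul_smul, ← sub_smul]
    congr 1
    push_cast
    ring
  rw [key, key]
  exact LinearMap.congr_fun (commute_aeval hcomm p) X

theorem coch_mul {P : ℤ → Matrix n n ℂ} (mul : ∀ p q, P p * P q = if p = q then P p else 0)
    (sum : P 0 + P 1 + P 2 = 1) {z : ℂ} (hz : z ≠ 0) : coch P z * coch P z⁻¹ = 1 := by
  have h00 := mul 0 0
  have h01 := mul 0 1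
  have h02 := mul 0 2
  have h10 := mul 1 0
  have h11 := mul 1 1
  have h12 := mul 1 2
  have h20 := mul 2 0
  have h21 := mul 2 1
  have h22 := mul 2 2
  rw [if_pos rfl] at h00 h11 h22
  rw [if_neg (by decide)] at h01 h02 h10 h12 h20 h21
  unfold coch
  simp only [add_mul, mul_add, Matrix.smul_mul, Matrix.mul_smul, h00, h01, h02, h10, h11, h12, h20, h21, h22,
    smul_zero, add_zero, zero_add, smul_smul]
  rw [inv_mul_cancel₀ hz, one_smul, ← mul_pow, inv_mul_cancel₀ hz, one_pow, one_smul, sum]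

/-- a linear map of matrices that is defined over the rational numbers and commutes with the Hodge cocharacter commutes
with the conjugation with every element of the Mumford-Tate group -/
theorem MT_comm {P : ℤ → Matrix n n ℂ} (mul : ∀ p q, P p * P q = if p = q then P p else 0)
    (sum : P 0 + P 1 + P 2 = 1) (F : Matrix n n ℂ →ₗ[ℂ] Matrix n n ℂ)
    (hrat : ∀ A : Matrix n n ℚ, ∃ B : Matrix n n ℚ, F (toC A) = toC B)
    (hF : ∀ X, F ((P 2 - P 0) * X - X * (P 2 - P 0)) = (P 2 - P 0) * F X - F X * (P 2 - P 0)) {g : GL n ℂ}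
    (hg : g ∈ MT {0, 1, 2} P) (X : Matrix n n ℂ) :
    F ((g : Matrix n n ℂ) * X * ((g⁻¹ : GL n ℂ) : Matrix n n ℂ)) =
      (g : Matrix n n ℂ) * F X * ((g⁻¹ : GL n ℂ) : Matrix n n ℂ) := by
  choose B hB using hrat
  let t : (Fin 2 ⊕ Fin 2 → n) → ℚ := fun i =>
    B (Matrix.single (i (Sum.inr 1)) (i (Sum.inl 1)) 1) (i (Sum.inl 0)) (i (Sum.inr 0))
  have ht : tC t = ten F := by
    funext i
    have e1 : toC (Matrix.single (i (Sum.inr 1)) (i (Sum.inl 1)) (1 : ℚ)) =
        Matrix.single (i (Sum.inr 1)) (i (Sum.inl 1)) (1 : ℂ) := by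
      ext u v
      simp only [toC, Matrix.map_apply, Matrix.single_apply]
      split_ifs <;> simp
    show algebraMap ℚ ℂ (B _ _ _) = F _ _ _
    rw [← e1, hB]
    rfl
  have hco : ∀ z : ℂ, z ≠ 0 → conjL F (coch P z) (coch P z⁻¹) = F := by
    intro z hz
    apply LinearMap.ext
    intro X
    have h1 := comm_coch mul sum F hF (inv_ne_zero hz) X
    rw [inv_inv] at h1
    have h2 := coch_mul mul sum hz
    have h3 := coch_mul mul sum (inv_ne_zero hz)
    rw [inv_inv] at h3
    show coch P z * F (coch P z⁻¹ * X * coch P z) * coch P z⁻¹ = F X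
    rw [h1]
    calc coch P z * (coch P z⁻¹ * F X * coch P z) * coch P z⁻¹
        = (coch P z * coch P z⁻¹) * F X * (coch P z * coch P z⁻¹) := by simp only [mul_assoc]
      _ = F X := by rw [h2, one_mul, mul_one]
  have hH : IsHodgeTensor {0, 1, 2} P 2 2 t := by
    intro z hz
    rw [ht, cochar_eq, cochar_eq, actF_ten, hco z hz]
  have h1 := hg 2 2 t hH
  rw [ht, actF_ten] at h1
  have h2 := LinearMap.congr_fun (ten_inj h1) ((g : Matrix n n ℂ) * X * ((g⁻¹ : GL n ℂ) : Matrix n n ℂ))
  have g1 : ((g⁻¹ : GL n ℂ) : Matrix n n ℂ) * (g : Matrix n n ℂ) = 1 := by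
    rw [← Units.val_mul, inv_mul_cancel, Units.val_one]
  rw [← h2]
  show (g : Matrix n n ℂ) * F (((g⁻¹ : GL n ℂ) : Matrix n n ℂ) *
    ((g : Matrix n n ℂ) * X * ((g⁻¹ : GL n ℂ) : Matrix n n ℂ)) * (g : Matrix n n ℂ)) *
      ((g⁻¹ : GL n ℂ) : Matrix n n ℂ) = _
  have e2 : ((g⁻¹ : GL n ℂ) : Matrix n n ℂ) * ((g : Matrix n n ℂ) * X * ((g⁻¹ : GL n ℂ) : Matrix n n ℂ)) *
      (g : Matrix n n ℂ) = X := by
    calc _ = (((g⁻¹ : GL n ℂ) : Matrix n n ℂ) * (g : Matrix n n ℂ)) * X *
          (((g⁻¹ : GL n ℂ) : Matrix n n ℂ) * (g : Matrix n n ℂ)) := by simp only [mul_assoc]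
      _ = X := by rw [g1, one_mul, mul_one]
  rw [e2]

end SH94
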