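import Pool.Agent.Helper94.SH.Rules5
import Pool.Agent.Helper94.SH.Restrict

/-!
PrimeGeometricGenus (MP_b8862a_ag), construction (5): the base point and the family.
-/

set_option linter.unusedSectionVars false

open Matrix Module
open scoped Kronecker

namespace SH94

open MH MH.PGN

/-- the projection to the holomorphic part of the weight one structure -/
noncomputable def q1 : Matrix W W ℂ := (1 / 2 : ℂ) • (1 + Complex.I • psi ℂ)

/-- the projection to the antiholomorphic part of the weight one structure -/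
noncomputable def q0 : Matrix W W ℂ := (1 / 2 : ℂ) • (1 - Complex.I • psi ℂ)

theorem q_add : q1 + q0 = 1 := by
  rw [q1, q0, ← smul_add, add_add_sub_cancel, ← two_smul ℂ (1 : Matrix W W ℂ), smul_smul]
  norm_num

theorem Ipsi_sq : (Complex.I • psi ℂ) * (Complex.I • psi ℂ) = 1 := by
  rw [Matrix.smul_mul, Matrix.mul_smul, smul_smul, Complex.I_mul_I, psi_sq, neg_one_smul, neg_neg]

theorem q1_sq : q1 * q1 = q1 := by
  have h : (1 + Complex.I • psi ℂ) * (1 + Complex.I • psi ℂ) = (2 : ℂ) • (1 + Complex.I • psi ℂ) := by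
    rw [mul_add, add_mul, add_mul, Ipsi_sq, Matrix.one_mul, Matrix.mul_one, Matrix.one_mul, two_smul]
    abel
  rw [q1, Matrix.smul_mul, Matrix.mul_smul, h, smul_smul, smul_smul]
  norm_num

theorem q0_eq : q0 = 1 - q1 := by rw [← q_add]; abel

theorem q0_sq : q0 * q0 = q0 := by
  rw [q0_eq, sub_mul, mul_sub, mul_sub, q1_sq, Matrix.one_mul, Matrix.mul_one, Matrix.one_mul]
  abel

theorem q10 : q1 * q0 = 0 := by rw [q0_eq, mul_sub, q1_sq, Matrix.mul_one, sub_self]

theorem q01 : q0 * q1 = 0 := by rw [q0_eq, sub_mul, q1_sq, Matrix.one_mul, sub_self]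

theorem q1_conj : q1.map (starRingEnd ℂ) = q0 := by
  have hp : ∀ i j, starRingEnd ℂ (psi ℂ i j) = psi ℂ i j := fun i j =>
    congrFun (congrFun (psi_map (starRingEnd ℂ)) i) j
  ext i j
  rw [q1, q0]
  simp only [Matrix.map_apply, Matrix.smul_apply, Matrix.add_apply, Matrix.sub_apply, smul_eq_mul, map_mul, map_add,
    hp, Complex.conj_I, map_div₀, map_one, map_ofNat, Matrix.one_apply]
  split_ifs <;> simp <;> ring

theorem q0_conj : q0.map (starRingEnd ℂ) = q1 := by
  rw [← q1_conj]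
  ext i j
  simp

theorem q1_tr : q1ᵀ = q0 := by
  rw [q1, q0, Matrix.transpose_smul, Matrix.transpose_add, Matrix.transpose_one, Matrix.transpose_smul, psi_tr,
    smul_neg, sub_eq_add_neg]

theorem q0_tr : q0ᵀ = q1 := by rw [← q1_tr, Matrix.transpose_transpose]

theorem psi_q1 : psi ℂ * q1 = (-Complex.I) • q1 := by
  have h : psi ℂ * (1 + Complex.I • psi ℂ) = (-Complex.I) • (1 + Complex.I • psi ℂ) := by
    rw [mul_add, Matrix.mul_smul, psi_sq, Matrix.mul_one, smul_add, smul_smul, neg_mul, Complex.I_mul_I, neg_neg,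
      one_smul, smul_neg, neg_smul, add_comm]
  rw [q1, Matrix.mul_smul, h, smul_comm]

theorem psi_q0 : psi ℂ * q0 = Complex.I • q0 := by
  have h : psi ℂ * (1 - Complex.I • psi ℂ) = Complex.I • (1 - Complex.I • psi ℂ) := by
    rw [mul_sub, Matrix.mul_smul, psi_sq, Matrix.mul_one, smul_sub, smul_smul, Complex.I_mul_I, smul_neg, neg_smul,
      one_smul]
    abel
  rw [q0, Matrix.mul_smul, h, smul_comm]

theorem q1_psi : q1 * psi ℂ = (-Complex.I) • q1 := by
  rw [← psi_q1, q1, Matrix.smul_mul, Matrix.mul_smul, add_mul, mul_add, Matrix.one_mul, Matrix.mul_one,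
    Matrix.smul_mul, Matrix.mul_smul]

theorem q0_psi : q0 * psi ℂ = Complex.I • q0 := by
  rw [← psi_q0, q0, Matrix.smul_mul, Matrix.mul_smul, sub_mul, mul_sub, Matrix.one_mul, Matrix.mul_one,
    Matrix.smul_mul, Matrix.mul_smul]

/-- the Hodge projections of the base point -/
noncomputable def P5 (p : ℤ) : Matrix (W × W) (W × W) ℂ :=
  if p = 2 then q1 ⊗ₖ q1 else if p = 1 then q1 ⊗ₖ q0 + q0 ⊗ₖ q1 else if p = 0 then q0 ⊗ₖ q0 else 0

theorem P5_two : P5 2 = q1 ⊗ₖ q1 := rfl
theorem P5_one : P5 1 = q1 ⊗ₖ q0 + q0 ⊗ₖ q1 := by rw [P5, if_neg (by norm_num), if_pos rfl]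
theorem P5_zero : P5 0 = q0 ⊗ₖ q0 := by rw [P5, if_neg (by norm_num), if_neg (by norm_num), if_pos rfl]
theorem P5_else {p : ℤ} (h : p ∉ ({0, 1, 2} : Finset ℤ)) : P5 p = 0 := by
  simp only [Finset.mem_insert, Finset.mem_singleton, not_or] at h
  rw [P5, if_neg h.2.2, if_neg h.2.1, if_neg h.1]

/-- the polarisation -/
def Q5 : Matrix (W × W) (W × W) ℚ := psi ℚ ⊗ₖ psi ℚ

theorem toC_Q5 : toC Q5 = psi ℂ ⊗ₖ psi ℂ := by
  have hp : ∀ i j, algebraMap ℚ ℂ (psi ℚ i j) = psi ℂ i j := fun i j =>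
    congrFun (congrFun (psi_map (algebraMap ℚ ℂ)) i) j
  ext p q
  rw [toC, Q5, Matrix.map_apply, Matrix.kroneckerMap_apply, Matrix.kroneckerMap_apply, map_mul, hp, hp]

/-- the sign of the polarisation on the pieces -/
theorem Q5_P5 (p : ℤ) (hp : p ∈ ({0, 1, 2} : Finset ℤ)) : toC Q5 * P5 p = ((-1 : ℂ) ^ (p + 1)) • P5 p := by
  simp only [Finset.mem_insert, Finset.mem_singleton] at hp
  rcases hp with rfl | rfl | rfl
  · rw [toC_Q5, P5_zero, kron_sq, psi_q0, Matrix.smul_kronecker, Matrix.kronecker_smul, smul_smul, Complex.I_mul_I]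
    norm_num
  · rw [toC_Q5, P5_one, mul_add, kron_sq, kron_sq, psi_q0, psi_q1, Matrix.smul_kronecker, Matrix.kronecker_smul,
      Matrix.smul_kronecker, Matrix.kronecker_smul, smul_smul, smul_smul, neg_mul, mul_neg, Complex.I_mul_I]
    norm_num
  · rw [toC_Q5, P5_two, kron_sq, psi_q1, Matrix.smul_kronecker, Matrix.kronecker_smul, smul_smul, neg_mul, mul_neg,
      Complex.I_mul_I]
    norm_num

theorem P5_conj (p : ℤ) : (P5 p).map (starRingEnd ℂ) = P5 (2 - p) := by
  have hk : ∀ A B : Matrix W W ℂ, (A ⊗ₖ B).map (starRingEnd ℂ) = (A.map (starRingEnd ℂ)) ⊗ₖ (B.map (starRingEnd ℂ)) := by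
    intro A B
    ext i j
    simp
  by_cases hp : p ∈ ({0, 1, 2} : Finset ℤ)
  · simp only [Finset.mem_insert, Finset.mem_singleton] at hp
    rcases hp with rfl | rfl | rfl
    · rw [show (2 : ℤ) - 0 = 2 by norm_num, P5_zero, P5_two, hk, q0_conj]
    · rw [show (2 : ℤ) - 1 = 1 by norm_num, P5_one, Matrix.map_add _ (map_add _), hk, hk, q0_conj, q1_conj, add_comm]
    · rw [show (2 : ℤ) - 2 = 0 by norm_num, P5_zero, P5_two, hk, q1_conj]
  · rw [P5_else hp, P5_else, Matrix.map_zero _ (map_zero _)]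
    simp only [Finset.mem_insert, Finset.mem_singleton, not_or] at hp ⊢
    omega

theorem P5_tr (p : ℤ) : (P5 p)ᵀ = P5 (2 - p) := by
  by_cases hp : p ∈ ({0, 1, 2} : Finset ℤ)
  · simp only [Finset.mem_insert, Finset.mem_singleton] at hp
    rcases hp with rfl | rfl | rfl
    · rw [show (2 : ℤ) - 0 = 2 by norm_num, P5_zero, P5_two, ← Matrix.kroneckerMap_transpose, q0_tr]
    · rw [show (2 : ℤ) - 1 = 1 by norm_num, P5_one, Matrix.transpose_add, ← Matrix.kroneckerMap_transpose,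
        ← Matrix.kroneckerMap_transpose, q0_tr, q1_tr, add_comm]
    · rw [show (2 : ℤ) - 2 = 0 by norm_num, P5_zero, P5_two, ← Matrix.kroneckerMap_transpose, q1_tr]
  · rw [P5_else hp, P5_else, Matrix.transpose_zero]
    simp only [Finset.mem_insert, Finset.mem_singleton, not_or] at hp ⊢
    omega

theorem P5_mul (p q : ℤ) : P5 p * P5 q = if p = q then P5 p else 0 := by
  by_cases hp : p ∈ ({0, 1, 2} : Finset ℤ)
  · by_cases hq : q ∈ ({0, 1, 2} : Finset ℤ)
    · simp only [Finset.mem_insert, Finset.mem_singleton] at hp hq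
      rcases hp with rfl | rfl | rfl <;> rcases hq with rfl | rfl | rfl <;>
        simp [P5_zero, P5_one, P5_two, add_mul, mul_add, kron_sq, q1_sq, q0_sq, q10, q01]
    · rw [P5_else hq, mul_zero, if_neg]
      rintro rfl
      exact hq hp
  · rw [P5_else hp, zero_mul]
    split_ifs <;> rfl

theorem P5_sum : ∑ p ∈ ({0, 1, 2} : Finset ℤ), P5 p = 1 := by
  rw [Finset.sum_insert (by decide), Finset.sum_insert (by decide), Finset.sum_singleton, P5_zero, P5_one, P5_two]
  have h : (q1 + q0) ⊗ₖ (q1 + q0) = (1 : Matrix (W × W) (W × W) ℂ) := by rw [q_add, Matrix.one_kronecker_one]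
  rw [← h, Matrix.add_kronecker, Matrix.kronecker_add, Matrix.kronecker_add]
  abel

theorem base5 : IsHW 2 Q5 {0, 1, 2} P5 := by
  have hQP : ∀ p, toC Q5 * P5 p = ((-1 : ℂ) ^ (p + 1)) • P5 p := by
    intro p
    by_cases hp : p ∈ ({0, 1, 2} : Finset ℤ)
    · exact Q5_P5 p hp
    · rw [P5_else hp]
      simp
  refine ⟨P5_mul, fun p hp => P5_else hp, P5_sum, P5_conj, ?_, fun p q hpq => ?_, fun p v hv hv0 => ?_⟩
  · rw [Q5, ← Matrix.kroneckerMap_transpose, psi_tr]
    ext i j
    simp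
  · rw [mul_assoc, hQP, P5_tr, mul_smul_comm, P5_mul, if_neg (by omega), smul_zero]
  · have e1 : P5 (2 - p) *ᵥ star v = star v := by
      have : star (P5 p *ᵥ v) = (P5 p).map (starRingEnd ℂ) *ᵥ star v := by
        funext i
        simp only [Pi.star_apply, Matrix.mulVec, dotProduct, star_sum, star_mul', Matrix.map_apply, starRingEnd_apply]
      rw [← P5_conj, ← this, hv]
    have e2 : toC Q5 *ᵥ star v = ((-1 : ℂ) ^ (2 - p + 1)) • star v := by
      conv_lhs => rw [← e1]
      rw [Matrix.mulVec_mulVec, hQP, Matrix.smul_mulVec, e1]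
    rw [e2, dotProduct_smul, smul_eq_mul]
    have e3 : Complex.I ^ (2 * p - 2) * ((-1 : ℂ) ^ (2 - p + 1) * (v ⬝ᵥ star v)) = v ⬝ᵥ star v := by
      rw [← mul_assoc]
      have : Complex.I ^ (2 * p - 2) = (-1 : ℂ) ^ (p - 1) := by
        rw [show 2 * p - 2 = 2 * (p - 1) by ring, _root_.zpow_mul]
        norm_num
      rw [this, ← zpow_add₀ (by norm_num : (-1 : ℂ) ≠ 0), show p - 1 + (2 - p + 1) = 2 by ring]
      norm_num
    rw [e3]
    have e4 : (v ⬝ᵥ star v).re = ∑ i, Complex.normSq (v i) := by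
      simp only [dotProduct, Pi.star_apply, Complex.re_sum]
      refine Finset.sum_congr rfl fun i _ => ?_
      have : v i * star (v i) = (Complex.normSq (v i) : ℂ) := by
        rw [← Complex.mul_conj]
        rfl
      rw [this, Complex.ofReal_re]
    rw [e4]
    obtain ⟨i, hi⟩ := Function.ne_iff.1 hv0
    exact Finset.sum_pos' (fun j _ => Complex.normSq_nonneg _) ⟨i, Finset.mem_univ _, Complex.normSq_pos.2 hi⟩

end SH94
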