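import Pool.Agent.Helper2.PGN.Defs

/-!
PrimeGeometricGenus (MP_b8862a_ag), construction (5): the primitive part of the exterior square of a structure of weight
one and genus three; here the definitions and the commutation rules.
-/

set_option linter.unusedSectionVars false

open Matrix
open scoped Kronecker

namespace SH94

open MH MH.PGN

/-- the index set of the weight one structure -/
abbrev W : Type := Fin 3 ⊕ Fin 3

section
variable (R : Type*) [CommRing R]

/-- the symplectic form -/
def psi : Matrix W W R := Matrix.fromBlocks 0 1 (-1) 0

variable {R}

/-- upper nilpotent element of the symplectic Lie algebra -/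
def nU (S : Matrix (Fin 3) (Fin 3) R) : Matrix W W R := Matrix.fromBlocks 0 S 0 0

/-- lower nilpotent element of the symplectic Lie algebra -/
def nL (S : Matrix (Fin 3) (Fin 3) R) : Matrix W W R := Matrix.fromBlocks 0 0 S 0

/-- the derived action on the tensor square -/
def D (Y : Matrix W W R) : Matrix (W × W) (W × W) R := Y ⊗ₖ (1 : Matrix W W R) + (1 : Matrix W W R) ⊗ₖ Y

end

section
variable (K : Type*) [Field K]

/-- the projection to the class of the symplectic form -/
def E : Matrix (W × W) (W × W) K := fun p q => (1 / 6 : K) * (psi K p.1 p.2 * psi K q.1 q.2)

/-- the projection to the primitive part of the exterior square -/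
def e6 : Matrix (W × W) (W × W) K := (1 / 2 : K) • (1 - T W K) - E K

end

end SH94
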