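import Pool.Agent.Helper94.SH.Base5
import Pool.Agent.Helper81.PGN.End5

/-!
PrimeGeometricGenus (MP_b8862a_ag), construction (5): the family and its commutant.
-/

set_option linter.unusedSectionVars false

open Matrix Module
open scoped Kronecker

namespace SH94

open MH MH.PGN

section ring

variable {R : Type*} [CommRing R]

/-- the unipotent element -/
def uu (X : Matrix (Fin 3) (Fin 3) R) : Matrix W W R := Matrix.fromBlocks 1 X 0 1

/-- the complex structure -/
def JJ (X : Matrix (Fin 3) (Fin 3) R) : Matrix W W R := Matrix.fromBlocks (-X) (1 + X * X) (-1) X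

theorem uu_mul (X Y : Matrix (Fin 3) (Fin 3) R) : uu X * uu Y = uu (X + Y) := by
  rw [uu, uu, uu, Matrix.fromBlocks_multiply]
  simp [add_comm]

theorem uu_zero : uu (0 : Matrix (Fin 3) (Fin 3) R) = 1 := by
  rw [uu, Matrix.fromBlocks_one]

theorem uu_inv (X : Matrix (Fin 3) (Fin 3) R) : uu X * uu (-X) = 1 := by
  rw [uu_mul, add_neg_cancel, uu_zero]

theorem uu_inv' (X : Matrix (Fin 3) (Fin 3) R) : uu (-X) * uu X = 1 := by
  rw [uu_mul, neg_add_cancel, uu_zero]

theorem uu_psi (X : Matrix (Fin 3) (Fin 3) R) : uu X * psi R * uu (-X) = JJ X := by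
  rw [uu, uu, psi, JJ, Matrix.fromBlocks_multiply, Matrix.fromBlocks_multiply]
  congr 1
  · simp
  · simp [add_comm]
  · simp
  · simp

theorem uu_iso {X : Matrix (Fin 3) (Fin 3) R} (h : Xᵀ = X) : (uu X)ᵀ * psi R * uu X = psi R := by
  rw [uu, psi, Matrix.fromBlocks_transpose, Matrix.fromBlocks_multiply, Matrix.fromBlocks_multiply, h]
  congr 1 <;> simp

theorem uu_iso' {X : Matrix (Fin 3) (Fin 3) R} (h : Xᵀ = X) : uu X * psi R * (uu X)ᵀ = psi R := by
  rw [uu, psi, Matrix.fromBlocks_transpose, Matrix.fromBlocks_multiply, Matrix.fromBlocks_multiply, h]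
  congr 1 <;> simp

theorem JJ_tr {X : Matrix (Fin 3) (Fin 3) R} (h : Xᵀ = X) : (JJ X)ᵀ = Matrix.fromBlocks (-X) (-1) (1 + X * X) X := by
  rw [JJ, Matrix.fromBlocks_transpose]
  congr 1
  · rw [Matrix.transpose_neg, h]
  · rw [Matrix.transpose_neg, Matrix.transpose_one]
  · rw [Matrix.transpose_add, Matrix.transpose_one, Matrix.transpose_mul, h]

theorem JJ_psi {X : Matrix (Fin 3) (Fin 3) R} (h : Xᵀ = X) : JJ X * psi R + psi R * (JJ X)ᵀ = 0 := by
  rw [JJ_tr h, JJ, psi, Matrix.fromBlocks_multiply, Matrix.fromBlocks_multiply, Matrix.fromBlocks_add,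
    ← Matrix.fromBlocks_zero]
  congr 1 <;> simp

theorem psi_JJ {X : Matrix (Fin 3) (Fin 3) R} (h : Xᵀ = X) : (JJ X)ᵀ * psi R + psi R * JJ X = 0 := by
  rw [JJ_tr h, JJ, psi, Matrix.fromBlocks_multiply, Matrix.fromBlocks_multiply, Matrix.fromBlocks_add,
    ← Matrix.fromBlocks_zero]
  congr 1 <;> simp

theorem JJ_trace (X : Matrix (Fin 3) (Fin 3) R) : (JJ X).trace = 0 := by
  simp [JJ, Matrix.trace, Fintype.sum_sum_type]

theorem JJ_line (X F : Matrix (Fin 3) (Fin 3) R) (r : R) : JJ (X + r • F) =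
    JJ X + r • Matrix.fromBlocks (-F) (X * F + F * X) 0 F + (r ^ 2) • nU (F * F) := by
  rw [JJ, JJ, nU, Matrix.fromBlocks_smul, Matrix.fromBlocks_smul, Matrix.fromBlocks_add, Matrix.fromBlocks_add]
  congr 1
  · rw [neg_add, smul_neg, smul_zero, add_zero]
  · rw [add_mul, mul_add, mul_add, Matrix.mul_smul, Matrix.smul_mul, Matrix.smul_mul, Matrix.mul_smul, smul_smul,
      smul_add, pow_two]
    abel
  · simp
  · simp

end ring

/-- the commutant of the family -/
theorem comm_all {A : Matrix (W × W) (W × W) ℝ} {U : Set (Fin 3 → Fin 3 → ℝ)} (hU : IsOpen U) (hne : U.Nonempty)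
    (h : ∀ t ∈ U, A * D (JJ (Matrix.of t + (Matrix.of t)ᵀ)) = D (JJ (Matrix.of t + (Matrix.of t)ᵀ)) * A) :
    (∀ S : Matrix (Fin 3) (Fin 3) ℝ, Sᵀ = S → A * D (nU S) = D (nU S) * A) ∧
      ∀ S : Matrix (Fin 3) (Fin 3) ℝ, Sᵀ = S → A * D (nL S) = D (nL S) * A := by
  have add : ∀ {X Y : Matrix W W ℝ}, A * D X = D X * A → A * D Y = D Y * A → A * D (X + Y) = D (X + Y) * A := by
    intro X Y hX hY
    rw [D_add, mul_add, add_mul, hX, hY]
  have smul : ∀ (c : ℝ) {X : Matrix W W ℝ}, A * D X = D X * A → A * D (c • X) = D (c • X) * A := by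
    intro c X hX
    rw [D_smul, mul_smul_comm, smul_mul_assoc, hX]
  have sub : ∀ {X Y : Matrix W W ℝ}, A * D X = D X * A → A * D Y = D Y * A → A * D (X - Y) = D (X - Y) * A := by
    intro X Y hX hY
    rw [D_sub, mul_sub, sub_mul, hX, hY]
  have brk : ∀ {X Y : Matrix W W ℝ}, A * D X = D X * A → A * D Y = D Y * A →
      A * D (X * Y - Y * X) = D (X * Y - Y * X) * A := by
    intro X Y hX hY
    rw [D_brk, mul_sub, sub_mul]
    congr 1
    · rw [← mul_assoc, hX, mul_assoc, hY, mul_assoc]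
    · rw [← mul_assoc, hY, mul_assoc, hX, mul_assoc]
  obtain ⟨t, ht⟩ := hne
  obtain ⟨X, hX⟩ : ∃ X : Matrix (Fin 3) (Fin 3) ℝ, X = Matrix.of t + (Matrix.of t)ᵀ := ⟨_, rfl⟩
  have hXs : Xᵀ = X := by rw [hX, Matrix.transpose_add, Matrix.transpose_transpose, add_comm]
  -- the three coefficients
  have key : ∀ F : Matrix (Fin 3) (Fin 3) ℝ, Fᵀ = F → A * D (nU (F * F)) = D (nU (F * F)) * A ∧
      A * D (Matrix.fromBlocks (-F) (X * F + F * X) 0 F) = D (Matrix.fromBlocks (-F) (X * F + F * X) 0 F) * A := by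
    intro F hF
    have hcont : Continuous fun r : ℝ => t + r • fun i j => F i j / 2 := by fun_prop
    have hopen := hU.preimage hcont
    have h0 : (0 : ℝ) ∈ (fun r : ℝ => t + r • fun i j => F i j / 2) ⁻¹' U := by
      show t + (0 : ℝ) • _ ∈ U
      rw [zero_smul, add_zero]
      exact ht
    obtain ⟨ε, hε, hball⟩ := Metric.isOpen_iff.1 hopen 0 h0
    have hr : ∀ r : ℝ, |r| < ε → A * D (JJ (X + r • F)) = D (JJ (X + r • F)) * A := by
      intro r hr
      have h1 : t + r • (fun i j => F i j / 2) ∈ U := hball (by rwa [mem_ball_zero_iff, Real.norm_eq_abs])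
      have h2 : Matrix.of (t + r • fun i j => F i j / 2) + (Matrix.of (t + r • fun i j => F i j / 2))ᵀ = X + r • F := by
        rw [hX]
        ext i j
        have h3 : F j i = F i j := congrFun (congrFun hF i) j
        simp only [Matrix.add_apply, Matrix.of_apply, Matrix.transpose_apply, Matrix.smul_apply, Pi.add_apply,
          Pi.smul_apply, smul_eq_mul, h3]
        ring
      have h4 := h _ h1
      rwa [h2] at h4
    have k0 : A * D (JJ X) = D (JJ X) * A := by
      have := hr 0 (by simpa using hε)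
      rwa [zero_smul, add_zero] at this
    obtain ⟨J1, hJ1⟩ : ∃ J1, J1 = Matrix.fromBlocks (-F) (X * F + F * X) 0 F := ⟨_, rfl⟩
    obtain ⟨J2, hJ2⟩ : ∃ J2, J2 = nU (F * F) := ⟨_, rfl⟩
    have hδ : |ε / 2| < ε := by rw [abs_of_pos (by positivity)]; linarith
    have kp := hr (ε / 2) hδ
    have km := hr (-(ε / 2)) (by rwa [abs_neg])
    rw [JJ_line, ← hJ1, ← hJ2] at kp km
    rw [← hJ1, ← hJ2]
    have e2 : J2 = (2 * (ε / 2) ^ 2)⁻¹ • ((JJ X + (ε / 2) • J1 + (ε / 2) ^ 2 • J2) +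
        (JJ X + (-(ε / 2)) • J1 + (-(ε / 2)) ^ 2 • J2) - (2 : ℝ) • JJ X) := by
      have : (JJ X + (ε / 2) • J1 + (ε / 2) ^ 2 • J2) +
        (JJ X + (-(ε / 2)) • J1 + (-(ε / 2)) ^ 2 • J2) - (2 : ℝ) • JJ X = (2 * (ε / 2) ^ 2) • J2 := by
        rw [neg_sq, neg_smul, two_smul, mul_smul, two_smul]
        abel
      rw [this, smul_smul, inv_mul_cancel₀ (by positivity), one_smul]
    have e1 : J1 = ε⁻¹ • ((JJ X + (ε / 2) • J1 + (ε / 2) ^ 2 • J2) -
        (JJ X + (-(ε / 2)) • J1 + (-(ε / 2)) ^ 2 • J2)) := by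
      have : (JJ X + (ε / 2) • J1 + (ε / 2) ^ 2 • J2) -
        (JJ X + (-(ε / 2)) • J1 + (-(ε / 2)) ^ 2 • J2) = ε • J1 := by
        have h5 : ε • J1 = (ε / 2) • J1 + (ε / 2) • J1 := by rw [← add_smul, add_halves]
        rw [neg_sq, neg_smul, h5]
        abel
      rw [this, smul_smul, inv_mul_cancel₀ hε.ne', one_smul]
    exact ⟨by rw [e2]; exact smul _ (sub (add kp km) (smul _ k0)), by rw [e1]; exact smul _ (sub kp km)⟩
  have kU : ∀ S : Matrix (Fin 3) (Fin 3) ℝ, Sᵀ = S → A * D (nU S) = D (nU S) * A := by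
    intro S hS
    have e1 : nU S = (2 : ℝ)⁻¹ • (nU ((S + 1) * (S + 1)) - nU (S * S) - nU (1 * 1)) := by
      rw [nU, nU, nU, nU, sub_eq_add_neg, sub_eq_add_neg, Matrix.fromBlocks_neg, Matrix.fromBlocks_neg,
        Matrix.fromBlocks_add, Matrix.fromBlocks_add, Matrix.fromBlocks_smul]
      congr 1
      · simp
      · rw [add_mul, mul_add, mul_add, Matrix.one_mul, Matrix.mul_one, Matrix.mul_one,
          show S * S + S + (S + 1) + -(S * S) + -1 = (2 : ℝ) • S by rw [two_smul]; abel, smul_smul]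
        norm_num
      · simp
      · simp
    rw [e1]
    exact smul _ (sub (sub (key _ (by rw [Matrix.transpose_add, hS, Matrix.transpose_one])).1 (key _ hS).1)
      (key _ Matrix.transpose_one).1)
  have kD : ∀ F : Matrix (Fin 3) (Fin 3) ℝ, Fᵀ = F →
      A * D (Matrix.fromBlocks (-F) 0 0 F) = D (Matrix.fromBlocks (-F) 0 0 F) * A := by
    intro F hF
    have e1 : Matrix.fromBlocks (-F) 0 0 F = Matrix.fromBlocks (-F) (X * F + F * X) 0 F - nU (X * F + F * X) := by
      rw [nU, sub_eq_add_neg, Matrix.fromBlocks_neg, Matrix.fromBlocks_add]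
      congr 1 <;> simp
    rw [e1]
    refine sub (key F hF).2 (kU _ ?_)
    rw [Matrix.transpose_add, Matrix.transpose_mul, Matrix.transpose_mul, hF, hXs, add_comm]
  have kL1 : A * D (nL (1 : Matrix (Fin 3) (Fin 3) ℝ)) = D (nL 1) * A := by
    have e1 : nL (1 : Matrix (Fin 3) (Fin 3) ℝ) = Matrix.fromBlocks (-X) 0 0 X + nU (1 + X * X) - JJ X := by
      rw [nL, nU, JJ, sub_eq_add_neg, Matrix.fromBlocks_neg, Matrix.fromBlocks_add, Matrix.fromBlocks_add]
      congr 1 <;> simp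
    rw [e1]
    refine sub (add (kD X hXs) (kU _ ?_)) (by rw [hX]; exact h t ht)
    rw [Matrix.transpose_add, Matrix.transpose_one, Matrix.transpose_mul, hXs]
  refine ⟨kU, fun S hS => ?_⟩
  have e1 : nL S = (-(2 : ℝ)⁻¹) • (nL 1 * Matrix.fromBlocks (-S) 0 0 S - Matrix.fromBlocks (-S) 0 0 S * nL 1) := by
    rw [nL, nL, Matrix.fromBlocks_multiply, Matrix.fromBlocks_multiply, sub_eq_add_neg, Matrix.fromBlocks_neg,
      Matrix.fromBlocks_add, Matrix.fromBlocks_smul]
    congr 1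
    · simp
    · simp
    · simp only [Matrix.one_mul, Matrix.mul_one, Matrix.mul_zero, add_zero, zero_add]
      rw [← neg_add, ← two_smul ℝ S, smul_neg, neg_smul, neg_neg, smul_smul]
      norm_num
    · simp
  rw [e1]
  exact smul _ (brk kL1 (kD S hS))

end SH94
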